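import Pool.Agent.KZ.Defs

/-!
# KZ4: additivity of the virtual dimensions
-/

set_option autoImplicit false

namespace Pool.Agent.KZ

open Finset

theorem ch2_add (a b : ℕ) :
    (((a + b).choose 2 : ℕ) : ℤ) = a.choose 2 + b.choose 2 + a * b := by
  induction b with
  | zero => simp
  | succ b ih =>
    have h1 : (a + (b + 1)).choose 2 = (a + b) + (a + b).choose 2 := by
      rw [← add_assoc, Nat.choose_succ_succ' (a + b) 1, Nat.choose_one_right]
    have h2 : (b + 1).choose 2 = b + b.choose 2 := by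
      rw [Nat.choose_succ_succ' b 1, Nat.choose_one_right]
    rw [h1, h2]
    push_cast
    push_cast at ih
    linarith

theorem two_mc2 (n : ℕ) : 2 * mc n 2 = (n : ℤ) * (n + 1) := by
  unfold mc
  induction n with
  | zero => simp
  | succ n ih =>
    rw [Nat.multichoose_succ_succ, Nat.multichoose_one_right]
    push_cast
    push_cast at ih
    linarith

/-- The conditions of a triple point on `L_0` on the levels `1` and `2`. -/
theorem dl_sub (c n : ℕ) (hn : 2 * c ≤ n) : dl c n = dl c (n - c) + (c : ℤ) ^ 2 := by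
  have h1 := two_mc2 n
  have h2 := two_mc2 (n - c)
  have h3 := two_mc2 (n - c - c)
  have h4 : ((n - c : ℕ) : ℤ) = n - c := by push_cast [show c ≤ n by omega]; ring
  have h5 : ((n - c - c : ℕ) : ℤ) = n - 2 * c := by
    rw [show n - c - c = n - 2 * c by omega]
    push_cast [hn]
    ring
  rw [h4] at h2
  rw [h5] at h3
  unfold dl
  nlinarith

theorem two_dl (c n : ℕ) (hn : c ≤ n) : 2 * dl c n = (c : ℤ) * (2 * n - c + 1) := by
  have h1 := two_mc2 n
  have h2 := two_mc2 (n - c)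
  have h4 : ((n - c : ℕ) : ℤ) = n - c := by push_cast [hn]; ring
  rw [h4] at h2
  unfold dl
  nlinarith

theorem add01 (c n : ℕ) (hn : c ≤ n) (t' t'' y r d s : ℕ) :
    v0 n (t' + t'' + 2 * y + 3 * r) d s =
      v0 (n - c) t' y (s + r) + v1 c n ⟨t'', y, r, t', d, 0, 0⟩ := by
  have h1 := ch2_add t' (t'' + 2 * y + 3 * r)
  rw [show t' + (t'' + 2 * y + 3 * r) = t' + t'' + 2 * y + 3 * r by ring] at h1
  have h4 : ((n - c : ℕ) : ℤ) = n - c := by push_cast [hn]; ring
  unfold v0 v1 L1.T dl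
  simp only
  rw [h1, h4]
  push_cast
  ring

theorem add12 (c n : ℕ) (hn : 2 * c ≤ n) (t' t'' p' p'' q' q'' u' u'' d' d'' w s y r : ℕ) :
    v1 c n ⟨t' + t'' + 3 * r, p' + p'', q' + q'', u' + u'' + 2 * y, d' + d'', w, s⟩ =
      v1 c (n - c) ⟨t', p', q', u', d', y, s + r⟩ +
        v2 c n ⟨t'', p'', q'', r, u'', y, t', p', q', u', d'', w, d'⟩ := by
  have h1 := ch2_add (t' + 2 * p' + 3 * q') (t'' + 2 * p'' + 3 * q'' + 3 * r)
  rw [show t' + 2 * p' + 3 * q' + (t'' + 2 * p'' + 3 * q'' + 3 * r) =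
    t' + t'' + 3 * r + 2 * (p' + p'') + 3 * (q' + q'') by ring] at h1
  have h4 : ((n - c : ℕ) : ℤ) = n - c := by push_cast [show c ≤ n by omega]; ring
  have h5 : n - c - c = n - 2 * c := by omega
  have h6 := dl_sub c n hn
  unfold v1 v2 L1.T L2.T L2.U L2.Y
  simp only
  rw [h1, h4, h5]
  have h7 : dl c n = mc n 2 - mc (n - c) 2 := rfl
  have h8 : dl c (n - c) = dl c n - (c : ℤ) ^ 2 := by rw [h6]; ring
  have h9 : mc (n - c) 2 = mc n 2 - dl c n := by rw [h7]; ring
  rw [h8, h9]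
  push_cast
  ring

/-- One triple point on `L_0` more. -/
theorem v1_u (c n : ℕ) (a : L1) (k : ℕ) :
    v1 c n { a with u := a.u + k } = v1 c n a - k * (dl c n - a.T) := by
  unfold v1 L1.T
  simp only
  push_cast
  ring

theorem v1_s (c n : ℕ) (a : L1) (s : ℕ) : v1 c n { a with s := a.s + s } = v1 c n a - s := by
  unfold v1 L1.T
  simp only
  push_cast
  ring

theorem v0_t (n t d s : ℕ) : v0 n (t + 1) d s = v0 n t d s - (mc n 2 - t) := by
  have h := ch2_add t 1
  unfold v0
  rw [h]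
  have h2 : (Nat.choose 1 2 : ℤ) = 0 := by norm_num
  rw [h2]
  push_cast
  ring

theorem v0_s (n t d s s' : ℕ) : v0 n t d (s + s') = v0 n t d s - s' := by
  unfold v0
  push_cast
  ring

end Pool.Agent.KZ
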