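import Pool.Agent.KZ.Defs

/-!
# KZ4: real estimates for the step from the level `1` to the level `2`
-/

set_option autoImplicit false

namespace Pool.Agent.KZ

open Finset

theorem xx_eq : 3 * xx ^ 2 - 6 * xx + 1 = 0 := by
  have h : Real.sqrt (2 / 3) ^ 2 = 2 / 3 := Real.sq_sqrt (by norm_num)
  unfold xx
  nlinarith [h]

theorem xx_bd : (0.18350 : ℝ) < xx ∧ xx < 0.18351 := by
  have h1 : Real.sqrt (2 / 3) < 0.8165 := by
    rw [Real.sqrt_lt' (by norm_num)]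
    norm_num
  have h2 : (0.81649 : ℝ) < Real.sqrt (2 / 3) := by
    apply Real.lt_sqrt_of_sq_lt
    norm_num
  unfold xx
  constructor <;> linarith

/-- The number of monomials of degree `4`. -/
noncomputable def P4 (m : ℝ) : ℝ := m * (m + 1) * (m + 2) * (m + 3) / 24

theorem mc2_cast (n : ℕ) : ((mc n 2 : ℤ) : ℝ) = (n : ℝ) * (n + 1) / 2 := by
  have e : n + 2 - 1 = n + 1 := rfl
  unfold mc
  rw [Nat.multichoose_eq, e, Int.cast_natCast, Nat.cast_choose_two]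
  push_cast
  ring

private theorem mc3_cast (n : ℕ) : ((Nat.multichoose n 3 : ℕ) : ℝ) = (n : ℝ) * (n + 1) * (n + 2) / 6 := by
  induction n with
  | zero => simp
  | succ n ih =>
    have h2 := mc2_cast (n + 1)
    unfold mc at h2
    rw [Int.cast_natCast] at h2
    rw [Nat.multichoose_succ_succ, Nat.cast_add, ih, h2]
    push_cast
    ring

theorem mc4_cast (n : ℕ) : ((mc n 4 : ℤ) : ℝ) = P4 n := by
  unfold mc P4
  rw [Int.cast_natCast]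
  induction n with
  | zero => simp
  | succ n ih =>
    rw [Nat.multichoose_succ_succ, Nat.cast_add, ih, mc3_cast]
    push_cast
    ring

theorem dl_cast (c n : ℕ) (h : c ≤ n) : ((dl c n : ℤ) : ℝ) = c * n - c * (c - 1) / 2 := by
  unfold dl
  rw [Int.cast_sub, mc2_cast, mc2_cast, Nat.cast_sub h]
  ring

theorem v1_cast (c n : ℕ) (h : c ≤ n) (a : L1) : ((v1 c n a : ℤ) : ℝ) =
    P4 n - P4 (n - c) - a.T * ((n : ℝ) * (n + 1) / 2) - a.u * (c * n - c * (c - 1) / 2) +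
      a.p * (n - c) + a.q - a.d * n - a.w * c - a.s + a.T * ((a.T : ℝ) - 1) / 2 + a.T * a.u := by
  have h2 : ((a.T.choose 2 : ℕ) : ℝ) = a.T * ((a.T : ℝ) - 1) / 2 := Nat.cast_choose_two ℝ a.T
  have h3 := mc4_cast n
  have h4 := mc4_cast (n - c)
  have h5 := mc2_cast n
  unfold mc at h3 h4 h5
  rw [Int.cast_natCast] at h3 h4 h5
  unfold v1
  push_cast
  rw [h3, h4, h5, dl_cast c n h, Nat.cast_sub h, h2]

private theorem mono_bd {c n : ℝ} (hc : 1 ≤ c) (hn : c ≤ n) :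
    (0 ≤ c ∧ c ≤ c ^ 2 ∧ c ^ 2 ≤ c ^ 3 ∧ c ^ 3 ≤ c ^ 4) ∧
    (0 ≤ n ∧ n ≤ n ^ 2) ∧ c * n ≤ c ^ 2 * n ∧ c ^ 2 * n ≤ c ^ 3 * n ∧ c ^ 3 * n ≤ c ^ 2 * n ^ 2 ∧
    c * n ^ 2 ≤ c ^ 2 * n ^ 2 ∧ c ^ 4 ≤ c ^ 3 * n ∧ c ^ 2 ≤ c * n ∧ c ^ 3 ≤ c ^ 2 * n := by
  have h0 : 0 ≤ c := by linarith
  have hn0 : 0 ≤ n := by linarith
  have h1 : 0 ≤ c - 1 := by linarith
  have h2 : 0 ≤ n - c := by linarith
  have a1 : 0 ≤ c * (c - 1) := by positivity
  have a2 : 0 ≤ c ^ 2 * (c - 1) := by positivity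
  have a3 : 0 ≤ c ^ 3 * (c - 1) := by positivity
  have a4 : 0 ≤ n * (n - 1) := mul_nonneg hn0 (by linarith)
  have a5 : 0 ≤ c * (c - 1) * n := by positivity
  have a6 : 0 ≤ c ^ 2 * (c - 1) * n := by positivity
  have a7 : 0 ≤ c ^ 2 * n * (n - c) := by positivity
  have a8 : 0 ≤ c * (c - 1) * n ^ 2 := by positivity
  have a9 : 0 ≤ c ^ 3 * (n - c) := by positivity
  have a10 : 0 ≤ c * (n - c) := by positivity
  have a11 : 0 ≤ c ^ 2 * (n - c) := by positivity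
  refine ⟨⟨h0, by linarith, by linarith, by linarith⟩, ⟨hn0, by linarith⟩, ?_, ?_, ?_, ?_, ?_, ?_, ?_⟩ <;>
    linarith

theorem P4diff {c n : ℝ} (hc : 1 ≤ c) (hn : c ≤ n) :
    |P4 (n - c) - P4 (n - 2 * c) - c * n ^ 3 / 6| ≤ 10 * c ^ 2 * n ^ 2 := by
  obtain ⟨⟨a0, a1, a2, a3⟩, ⟨b0, b1⟩, d1, d2, d3, d4, d5, d6, d7⟩ := mono_bd hc hn
  have e : P4 (n - c) - P4 (n - 2 * c) - c * n ^ 3 / 6 =
      (-18 * (c ^ 2 * n ^ 2) + 28 * (c ^ 3 * n) - 15 * c ^ 4 + 18 * (c * n ^ 2) -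
        54 * (c ^ 2 * n) + 42 * c ^ 3 + 22 * (c * n) - 33 * c ^ 2 + 6 * c) / 24 := by
    unfold P4
    ring
  have p1 : 0 ≤ c ^ 2 * n := by positivity
  have p2 : 0 ≤ c * n ^ 2 := by positivity
  have p3 : 0 ≤ c * n := by positivity
  have p4 : 0 ≤ c ^ 2 := by positivity
  rw [e, abs_le]
  constructor <;> linarith

theorem P4diff2 {c n : ℝ} (hc : 1 ≤ c) (hn : c ≤ n) :
    |P4 n - 2 * P4 (n - c) + P4 (n - 2 * c) - c ^ 2 * n ^ 2 / 2| ≤ 6 * c ^ 3 * n := by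
  obtain ⟨⟨a0, a1, a2, a3⟩, ⟨b0, b1⟩, d1, d2, d3, d4, d5, d6, d7⟩ := mono_bd hc hn
  have e : P4 n - 2 * P4 (n - c) + P4 (n - 2 * c) - c ^ 2 * n ^ 2 / 2 =
      (-24 * (c ^ 3 * n) + 14 * c ^ 4 + 36 * (c ^ 2 * n) - 36 * c ^ 3 + 22 * c ^ 2) / 24 := by
    unfold P4
    ring
  have p1 : 0 ≤ c ^ 2 * n := by positivity
  have p4 : 0 ≤ c ^ 2 := by positivity
  rw [e, abs_le]
  constructor <;> linarith

/-- The value without triple points on `L_0`. -/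
theorem est1 {c n x e N p q d : ℝ} (hc : 240 ≤ c) (hn : 2 * c ≤ n)
    (hN : |N - x * c * n| ≤ e * n + c ^ 2) (hN0 : 0 ≤ N) (hN1 : N ≤ c * n)
    (hp0 : 0 ≤ p) (hp1 : p ≤ n) (hq0 : 0 ≤ q) (hq1 : q ≤ 2 * n) (hd0 : 0 ≤ d) (hd1 : d ≤ n) :
    |(P4 (n - c) - P4 (n - 2 * c) - N * ((n - c) * (n - c + 1) / 2) + N * (N - 1) / 2 +
      p * (n - 2 * c) + q - d * (n - c)) - (c / 6 - x * c / 2) * n ^ 3| ≤
      e * n ^ 3 / 2 + 15 * c ^ 2 * n ^ 2 := by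
  have hc1 : (1 : ℝ) ≤ c := by linarith
  have hcn : c ≤ n := by linarith
  obtain ⟨⟨a0, a1, a2, a3⟩, ⟨b0, b1⟩, d1, d2, d3, d4, d5, d6, d7⟩ := mono_bd hc1 hcn
  have k1 := P4diff hc1 hcn
  have k2 : |(N - x * c * n) * (n ^ 2 / 2)| ≤ (e * n + c ^ 2) * (n ^ 2 / 2) := by
    rw [abs_mul, abs_of_nonneg (by positivity : 0 ≤ n ^ 2 / 2)]
    exact mul_le_mul_of_nonneg_right hN (by positivity)
  have k3 : |N * ((-2 * c * n + c ^ 2 + n - c) / 2)| ≤ c * n * (c * n) := by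
    rw [abs_mul, abs_of_nonneg hN0]
    refine mul_le_mul hN1 ?_ (abs_nonneg _) (by positivity)
    have t1 : n ≤ c * n := by nlinarith
    have t2 : 0 ≤ c * n := by positivity
    have t3 : c ^ 2 ≤ c * n := d6
    rw [abs_le]
    constructor <;> linarith
  have k4 : |N * (N - 1) / 2| ≤ c ^ 2 * n ^ 2 := by
    have t1 : N * N ≤ c * n * (c * n) := mul_le_mul hN1 hN1 hN0 (by positivity)
    have t2 : c * n ≤ c * n * (c * n) := by
      have : 1 ≤ c * n := by nlinarith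
      nlinarith
    rw [abs_le]
    constructor <;> nlinarith
  have k5 : |p * (n - 2 * c)| ≤ n ^ 2 := by
    rw [abs_of_nonneg (mul_nonneg hp0 (by linarith))]
    nlinarith
  have k6 : |d * (n - c)| ≤ n ^ 2 := by
    rw [abs_of_nonneg (mul_nonneg hd0 (by linarith))]
    nlinarith
  have k7 : |q| ≤ 2 * n := by rwa [abs_of_nonneg hq0]
  have e1 : (P4 (n - c) - P4 (n - 2 * c) - N * ((n - c) * (n - c + 1) / 2) + N * (N - 1) / 2 +
      p * (n - 2 * c) + q - d * (n - c)) - (c / 6 - x * c / 2) * n ^ 3 =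
      (P4 (n - c) - P4 (n - 2 * c) - c * n ^ 3 / 6) - (N - x * c * n) * (n ^ 2 / 2) -
      N * ((-2 * c * n + c ^ 2 + n - c) / 2) + N * (N - 1) / 2 + p * (n - 2 * c) + q -
      d * (n - c) := by ring
  rw [e1]
  have t9 : n ^ 2 ≤ c ^ 2 * n ^ 2 := by nlinarith [sq_nonneg n]
  have t10 : c ^ 2 * n ^ 2 ≤ c ^ 2 * n ^ 2 := le_rfl
  rw [abs_le] at k1 k2 k3 k4 k5 k6 k7 ⊢
  have t11 : c ^ 2 * (n ^ 2 / 2) = c ^ 2 * n ^ 2 / 2 := by ring
  constructor <;> nlinarith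

private theorem abs_le_of_mul {X D B n : ℝ} (hn : 0 < n) (hD : n ≤ D) (h : |X * D| ≤ B * n) :
    |X| ≤ B := by
  have h1 : |X| * n ≤ B * n := by
    refine le_trans (mul_le_mul_of_nonneg_left hD (abs_nonneg X)) ?_
    rw [abs_mul, abs_of_pos (by linarith : 0 < D)] at h
    exact h
  exact le_of_mul_le_mul_right h1 hn

private theorem basics {c n : ℝ} (hc : 240 ≤ c) (hn : c ^ 2 ≤ n) :
    57600 ≤ n ∧ c ≤ n ∧ 2 * c ≤ n ∧ 240 * n ≤ c * n := by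
  have h1 : 57600 ≤ n := by nlinarith
  have h2 : 2 * c ≤ n := by nlinarith
  exact ⟨h1, by linarith, h2, mul_le_mul_of_nonneg_right hc (by linarith)⟩

/-- The unit at the trace. -/
theorem den1 {c n x e N : ℝ} (hc : 240 ≤ c) (hn : c ^ 2 ≤ n) (he1 : e ≤ 1)
    (hx1 : x < 0.18351) (hN : |N - x * c * n| ≤ e * n + c ^ 2) :
    n ≤ c * (n - c) - c * (c - 1) / 2 - N := by
  have hn0 : 0 ≤ n := by nlinarith
  obtain ⟨h1, h2⟩ := abs_le.1 hN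
  have h3 : e * n ≤ n := by nlinarith
  have h4 : x * c * n ≤ 0.18351 * (c * n) := by
    have : 0 ≤ c * n := by positivity
    nlinarith
  have h5 : 240 * n ≤ c * n := by nlinarith
  nlinarith

theorem est2 {c n x e η N u A g R : ℝ} (hc : 240 ≤ c) (hn : c ^ 2 ≤ n) (he : 0 ≤ e) (he1 : e ≤ 1)
    (hx : 3 * x ^ 2 - 6 * x + 1 = 0) (hx0 : 0.1835 < x) (hx1 : x < 0.18351)
    (hN : |N - x * c * n| ≤ e * n + c ^ 2)
    (hA : |A - (c / 6 - x * c / 2) * n ^ 3| ≤ e * n ^ 3 / 2 + 15 * c ^ 2 * n ^ 2)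
    (hg0 : 0 ≤ g) (hg : g ≤ η * n ^ 3) (hR0 : 0 ≤ R) (hR : R ≤ c * n)
    (hu : u * (c * (n - c) - c * (c - 1) / 2 - N) = A - g - R) :
    |u - x / 2 * n ^ 2| ≤ (e + η) * n ^ 2 + 17 * c ^ 2 * n := by
  have hD := den1 hc hn he1 hx1 hN
  have hn1 : 57600 ≤ n := by nlinarith
  have hcn : c ≤ n := by nlinarith
  have hn0 : 0 < n := by linarith
  refine abs_le_of_mul hn0 hD ?_
  have e1 : (u - x / 2 * n ^ 2) * (c * (n - c) - c * (c - 1) / 2 - N) =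
      (A - (c / 6 - x * c / 2) * n ^ 3) - g - R -
        (x / 2 * n ^ 2) * (-c ^ 2 - c * (c - 1) / 2 - (N - x * c * n)) := by
    linear_combination hu + (c / 6 * n ^ 3) * hx
  have k1 : |(x / 2 * n ^ 2) * (-c ^ 2 - c * (c - 1) / 2 - (N - x * c * n))| ≤
      (1 / 10 * n ^ 2) * (e * n + 5 / 2 * c ^ 2) := by
    rw [abs_mul]
    refine mul_le_mul ?_ ?_ (abs_nonneg _) (by positivity)
    · rw [abs_of_nonneg (by positivity)]
      nlinarith [sq_nonneg n]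
    · obtain ⟨h1, h2⟩ := abs_le.1 hN
      rw [abs_le]
      constructor <;> nlinarith
  rw [e1]
  have k2 : c * n ≤ c ^ 2 * n ^ 2 := by
    have h1 : (1 : ℝ) ≤ c * n := by nlinarith
    nlinarith
  have k3 : 0 ≤ e * n ^ 3 := by positivity
  have k4 : 0 ≤ c ^ 2 * n ^ 2 := by positivity
  have e2 : ((e + η) * n ^ 2 + 17 * c ^ 2 * n) * n = e * n ^ 3 + η * n ^ 3 + 17 * (c ^ 2 * n ^ 2) := by
    ring
  have e3 : (1 / 10 * n ^ 2) * (e * n + 5 / 2 * c ^ 2) = 1 / 10 * (e * n ^ 3) + 1 / 4 * (c ^ 2 * n ^ 2) := by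
    ring
  have e4 : e * n ^ 3 / 2 + 15 * c ^ 2 * n ^ 2 = (e * n ^ 3) / 2 + 15 * (c ^ 2 * n ^ 2) := by ring
  rw [e2]
  rw [e3] at k1
  rw [e4] at hA
  rw [abs_le] at k1 hA ⊢
  obtain ⟨k5, k6⟩ := k1
  obtain ⟨k7, k8⟩ := hA
  constructor <;> linarith

theorem est3 {c n x e η N M κ U u bp ap bq bd d' w w' δ r : ℝ} (hc : 240 ≤ c) (hn : c ^ 2 ≤ n)
    (he : 0 ≤ e) (he1 : e ≤ 1) (hη : 0 ≤ η) (hx : 3 * x ^ 2 - 6 * x + 1 = 0)
    (hx0 : 0.1835 < x) (hx1 : x < 0.18351) (hM : M = c ^ 2 * κ) (hκ0 : 1 / 6 ≤ κ) (hκ1 : κ ≤ 1 / 5)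
    (hN : |N - x * c * n| ≤ e * n) (hN0 : 0 ≤ N) (hN1 : N ≤ c * n)
    (hu : |u - x / 2 * n ^ 2| ≤ (e + η) * n ^ 2 + 17 * c ^ 2 * n)
    (hbp0 : 0 ≤ bp) (hbp1 : bp ≤ c) (hap0 : 0 ≤ ap) (hap1 : ap ≤ n) (hbq0 : 0 ≤ bq)
    (hbq1 : bq ≤ 2 * c) (hbd0 : 0 ≤ bd) (hbd1 : bd ≤ c) (hd0 : 0 ≤ d') (hd1 : d' ≤ n)
    (hw0 : 0 ≤ w) (hw1 : w ≤ n) (hw0' : 0 ≤ w') (hw1' : w' ≤ n) (hδ0 : -(c * n) ≤ δ)
    (hδ1 : δ ≤ η * n ^ 2) (hr0 : 0 ≤ r) (hr1 : r ≤ c)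
    (h : U * (c * n - c * (c - 1) / 2 - N) = (P4 n - 2 * P4 (n - c) + P4 (n - 2 * c)) -
      N * (2 * n * c - c ^ 2 + c) / 2 - M * ((n - c) * (n - c + 1)) / 2 - u * (c ^ 2 - M) +
      (2 * N * M - M ^ 2 - M) / 2 + bp * (n - 2 * c) + ap * c + bq - bd * n - d' * c -
      (w - w') * c - δ + r) :
    |U - (3 * x - κ) / 2 * c * n| ≤ 3 * c ^ 2 * (e + η) * n + 21 * c ^ 4 := by
  obtain ⟨hn1, hcn, h2cn, h240⟩ := basics hc hn
  have hn0 : 0 < n := by linarith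
  have hc1 : (1 : ℝ) ≤ c := by linarith
  have hc0 : (0 : ℝ) ≤ c := by linarith
  have hD0 := den1 hc hn he1 hx1 (le_trans hN (le_add_of_nonneg_right (sq_nonneg c)))
  have hD : n ≤ c * n - c * (c - 1) / 2 - N := by
    have t : c * (n - c) = c * n - c ^ 2 := by ring
    rw [t] at hD0
    linarith only [hD0, sq_nonneg c]
  refine abs_le_of_mul hn0 hD ?_
  obtain ⟨⟨a0, a1, a2, a3⟩, ⟨b0, b1⟩, d1, d2, d3, d4, d5, d6, d7⟩ := mono_bd hc1 hcn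
  have hM0 : 0 ≤ M := by
    rw [hM]
    exact mul_nonneg (sq_nonneg c) (by linarith only [hκ0])
  have hM1 : M ≤ c ^ 2 / 5 := by
    rw [hM]
    linarith only [mul_le_mul_of_nonneg_left hκ1 (sq_nonneg c)]
  have j1 := P4diff2 hc1 hcn
  have j2 : |(N - x * c * n) * (c * n)| ≤ e * n * (c * n) := by
    rw [abs_mul, abs_of_nonneg (by positivity : 0 ≤ c * n)]
    exact mul_le_mul_of_nonneg_right hN (by positivity)
  have j3 : |N * ((c ^ 2 - c) / 2)| ≤ c * n * (c ^ 2 / 2) := by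
    rw [abs_mul, abs_of_nonneg hN0]
    refine mul_le_mul hN1 ?_ (abs_nonneg _) (by positivity)
    rw [abs_le]
    constructor <;> linarith only [a1, a0]
  have j4 : |M * ((-2 * c * n + c ^ 2 + n - c) / 2)| ≤ c ^ 2 / 5 * (c * n) := by
    rw [abs_mul, abs_of_nonneg hM0]
    refine mul_le_mul hM1 ?_ (abs_nonneg _) (by positivity)
    have t1 : n ≤ c * n := le_mul_of_one_le_left b0 hc1
    have t2 : 0 ≤ c * n := mul_nonneg a0 b0
    rw [abs_le]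
    constructor <;> linarith only [t1, t2, d6, a1, a0, b0]
  have j5 : |(u - x / 2 * n ^ 2) * (c ^ 2 - M)| ≤ ((e + η) * n ^ 2 + 17 * c ^ 2 * n) * c ^ 2 := by
    have t1 : 0 ≤ c ^ 2 - M := by linarith only [hM1, sq_nonneg c]
    rw [abs_mul, abs_of_nonneg t1]
    refine mul_le_mul hu (by linarith only [hM0]) t1 ?_
    exact le_trans (abs_nonneg _) hu
  have j6 : |(2 * N * M - M ^ 2 - M) / 2| ≤ c ^ 3 * n := by
    have t1 : N * M ≤ c * n * (c ^ 2 / 5) := mul_le_mul hN1 hM1 hM0 (by positivity)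
    have t2 : 0 ≤ N * M := mul_nonneg hN0 hM0
    have t3 : M ^ 2 ≤ (c ^ 2 / 5) ^ 2 := by
      rw [sq, sq]
      exact mul_le_mul hM1 hM1 hM0 (by positivity)
    have t4 : (c ^ 2 / 5) ^ 2 ≤ c ^ 3 * n := by
      have : (c ^ 2 / 5) ^ 2 = c ^ 4 / 25 := by ring
      rw [this]
      linarith only [d5, pow_nonneg a0 4]
    have t5 : c ^ 2 / 5 ≤ c ^ 3 * n := by
      linarith only [sq_nonneg c, d5, a2, a3]
    have t6 : c * n * (c ^ 2 / 5) = c ^ 3 * n / 5 := by ring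
    have t7 := sq_nonneg M
    rw [t6] at t1
    rw [abs_le]
    constructor <;> linarith only [t1, t2, t3, t4, t5, t7, hM0, hM1]
  have j7 : |bp * (n - 2 * c)| ≤ c * n := by
    rw [abs_of_nonneg (mul_nonneg hbp0 (sub_nonneg.2 h2cn))]
    exact mul_le_mul hbp1 (by linarith only [hc0]) (sub_nonneg.2 h2cn) hc0
  have j8 : |ap * c| ≤ c * n := by
    rw [abs_of_nonneg (mul_nonneg hap0 hc0), mul_comm]
    exact mul_le_mul_of_nonneg_left hap1 hc0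
  have j9 : |bd * n| ≤ c * n := by
    rw [abs_of_nonneg (mul_nonneg hbd0 hn0.le)]
    exact mul_le_mul_of_nonneg_right hbd1 hn0.le
  have j10 : |d' * c| ≤ c * n := by
    rw [abs_of_nonneg (mul_nonneg hd0 hc0), mul_comm]
    exact mul_le_mul_of_nonneg_left hd1 hc0
  have j11 : |(w - w') * c| ≤ c * n := by
    rw [abs_mul, abs_of_nonneg hc0, mul_comm c n]
    refine mul_le_mul_of_nonneg_right ?_ hc0
    rw [abs_le]
    constructor <;> linarith only [hw0, hw1, hw0', hw1']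
  have hΦ0 : 0 ≤ (3 * x - κ) / 2 * c := mul_nonneg (by linarith only [hx0, hκ1]) hc0
  have hΦ1 : (3 * x - κ) / 2 * c ≤ c / 2 := by
    have t : (3 * x - κ) / 2 ≤ 1 / 2 := by linarith only [hx1, hκ0]
    linarith only [mul_le_mul_of_nonneg_right t hc0]
  have j12 : |(3 * x - κ) / 2 * c * n * (-(c * (c - 1)) / 2 - (N - x * c * n))| ≤
      c / 2 * n * (e * n + c ^ 2) := by
    rw [abs_mul, abs_of_nonneg (mul_nonneg hΦ0 hn0.le)]
    refine mul_le_mul (mul_le_mul_of_nonneg_right hΦ1 hn0.le) ?_ (abs_nonneg _)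
      (mul_nonneg (by linarith only [hc0]) hn0.le)
    obtain ⟨h1, h2⟩ := abs_le.1 hN
    have t : -(c * (c - 1)) / 2 = -(c ^ 2) / 2 + c / 2 := by ring
    rw [t, abs_le]
    constructor <;> linarith only [h1, h2, a1, a0]
  have e1 : (U - (3 * x - κ) / 2 * c * n) * (c * n - c * (c - 1) / 2 - N) =
      (P4 n - 2 * P4 (n - c) + P4 (n - 2 * c) - c ^ 2 * n ^ 2 / 2) - (N - x * c * n) * (c * n) +
      N * ((c ^ 2 - c) / 2) - M * ((-2 * c * n + c ^ 2 + n - c) / 2) -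
      (u - x / 2 * n ^ 2) * (c ^ 2 - M) + (2 * N * M - M ^ 2 - M) / 2 + bp * (n - 2 * c) +
      ap * c + bq - bd * n - d' * c - (w - w') * c - δ + r -
      (3 * x - κ) / 2 * c * n * (-(c * (c - 1)) / 2 - (N - x * c * n)) := by
    rw [hM] at h ⊢
    linear_combination h + (c ^ 2 * n ^ 2 / 2) * hx
  rw [e1]
  have e2 : (3 * c ^ 2 * (e + η) * n + 21 * c ^ 4) * n =
      3 * (c ^ 2 * (e * n ^ 2)) + 3 * (c ^ 2 * (η * n ^ 2)) + 21 * (c ^ 4 * n) := by ring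
  have e3 : e * n * (c * n) = c * (e * n ^ 2) := by ring
  have e4 : c * n * (c ^ 2 / 2) = c ^ 3 * n / 2 := by ring
  have e5 : c ^ 2 / 5 * (c * n) = c ^ 3 * n / 5 := by ring
  have e6 : ((e + η) * n ^ 2 + 17 * c ^ 2 * n) * c ^ 2 =
      c ^ 2 * (e * n ^ 2) + c ^ 2 * (η * n ^ 2) + 17 * (c ^ 4 * n) := by ring
  have e7 : c / 2 * n * (e * n + c ^ 2) = c * (e * n ^ 2) / 2 + c ^ 3 * n / 2 := by ring
  have e8 : 6 * c ^ 3 * n = 6 * (c ^ 3 * n) := by ring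
  rw [e2]
  rw [e8] at j1
  rw [e3] at j2
  rw [e4] at j3
  rw [e5] at j4
  rw [e6] at j5
  rw [e7] at j12
  have q0 : 0 ≤ e * n ^ 2 := mul_nonneg he (sq_nonneg n)
  have q1 : c * (e * n ^ 2) ≤ c ^ 2 * (e * n ^ 2) := mul_le_mul_of_nonneg_right a1 q0
  have q2 : η * n ^ 2 ≤ c ^ 2 * (η * n ^ 2) :=
    le_mul_of_one_le_left (mul_nonneg hη (sq_nonneg n)) (by linarith only [a1, hc1])
  have q7 : 0 ≤ c ^ 3 * n := mul_nonneg (pow_nonneg a0 3) b0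
  have q3 : 240 * (c ^ 3 * n) ≤ c ^ 4 * n := by
    have t := mul_le_mul_of_nonneg_right hc q7
    have t' : c * (c ^ 3 * n) = c ^ 4 * n := by ring
    rwa [t'] at t
  have q4 : 0 ≤ c ^ 2 * (e * n ^ 2) := mul_nonneg (sq_nonneg c) q0
  have q5 : 0 ≤ η * n ^ 2 := mul_nonneg hη (sq_nonneg n)
  have q6 : c ≤ c * n := le_mul_of_one_le_right hc0 (by linarith only [hn1])
  have q9 : 0 ≤ c * n := mul_nonneg a0 b0
  have q8 : c * n ≤ c ^ 3 * n := by linarith only [d1, d2]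
  rw [abs_le] at j1 j2 j3 j4 j5 j6 j7 j8 j9 j10 j11 j12 ⊢
  obtain ⟨l1, r1⟩ := j1
  obtain ⟨l2, r2⟩ := j2
  obtain ⟨l3, r3⟩ := j3
  obtain ⟨l4, r4⟩ := j4
  obtain ⟨l5, r5⟩ := j5
  obtain ⟨l6, r6⟩ := j6
  obtain ⟨l7, r7⟩ := j7
  obtain ⟨l8, r8⟩ := j8
  obtain ⟨l9, r9⟩ := j9
  obtain ⟨l10, r10⟩ := j10
  obtain ⟨l11, r11⟩ := j11
  obtain ⟨l12, r12⟩ := j12
  constructor
  · linarith only [l1, r2, l3, r4, r5, l6, l7, l8, hbq0, r9, r10, r11, hδ1, hr0, r12, q0, q1, q2,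
      q3, q4, q5, q6, q7, q8, q9, hc0]
  · linarith only [r1, l2, r3, l4, l5, r6, r7, r8, hbq1, l9, l10, l11, hδ0, hr1, l12, q0, q1, q2,
      q3, q4, q5, q6, q7, q8, q9, hc0]

end Pool.Agent.KZ
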