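import Pool.Agent.KZ.Num.Add

/-!
# KZ4: the numbers for the step from the level `0` to the level `1`

`t'` = the largest number with `v0 (n - c) t' 0 0 ≥ g + 1`; `b.p = y ≤ .41 n + 1` double points of the
trace (unit `mc (n-c) 2 - t' ≈ (1 - x) n^2 / 2 ≤ .4084 n^2`, a double point costs `n - c`), then
`b.q = r ∈ [1, n - c]`.  `b.T = t - t'` is `x c n` up to `e n`, since `v0 n t d 0 ≈ g` and
`v0 (n - c) t' y 0 ≈ g`.
-/

set_option autoImplicit false

namespace Pool.Agent.KZ.Nm0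

open Finset

theorem xx_root : 3 * xx ^ 2 - 6 * xx + 1 = 0 := by
  have h : Real.sqrt (2 / 3) ^ 2 = 2 / 3 := Real.sq_sqrt (by norm_num)
  unfold xx
  linear_combination 3 * h

theorem xx_gt : (0.18350 : ℝ) < xx := by
  have h : Real.sqrt (2 / 3) < 0.8165 := by
    rw [Real.sqrt_lt' (by norm_num)]
    norm_num
  unfold xx
  linarith

theorem xx_lt : xx < (0.18351 : ℝ) := by
  have h : (0.81649 : ℝ) < Real.sqrt (2 / 3) := by
    rw [Real.lt_sqrt (by norm_num)]
    norm_num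
  unfold xx
  linarith

theorem mc4 (n : ℕ) : 24 * mc n 4 = (n : ℤ) * (n + 1) * (n + 2) * (n + 3) := by
  have h3 : ∀ n : ℕ, 6 * mc n 3 = (n : ℤ) * (n + 1) * (n + 2) := by
    intro n
    unfold mc
    induction n with
    | zero => simp
    | succ n ih =>
      have h2 := two_mc2 (n + 1)
      unfold mc at h2
      rw [Nat.multichoose_succ_succ]
      push_cast
      push_cast at h2
      linear_combination ih + 3 * h2
  unfold mc
  induction n with
  | zero => simp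
  | succ n ih =>
    have h2 := h3 (n + 1)
    unfold mc at h2
    rw [Nat.multichoose_succ_succ]
    push_cast
    push_cast at h2
    linear_combination ih + 4 * h2

/-- `N^4/24 - t N^2/2 + t^2/2` small: `t` is near `x N^2 / 2`. -/
theorem near_t (N t η : ℝ) (hN : 0 < N) (hη : 0 < η) (h6 : 6 * t ≤ N ^ 2)
    (h : |N ^ 4 / 24 - t * N ^ 2 / 2 + t ^ 2 / 2| ≤ 2 * η * N ^ 4) :
    |t - xx / 2 * N ^ 2| ≤ 6 * η * N ^ 2 := by
  have hx := xx_root
  have h1 := xx_gt
  have h2 := xx_lt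
  have h3 : N ^ 4 / 24 - t * N ^ 2 / 2 + t ^ 2 / 2 =
      (t - xx / 2 * N ^ 2) * (t - (1 - xx / 2) * N ^ 2) / 2 := by
    linear_combination (N ^ 4 / 24) * hx
  have hN2 : 0 < N ^ 2 := by positivity
  have h4 : 0.74 * N ^ 2 ≤ (1 - xx / 2) * N ^ 2 - t := by linarith only [hN2, h6,
                                                            mul_nonneg (sq_nonneg (N)) (sub_nonneg.2 h2.le)]
  rw [h3, abs_div, abs_mul, abs_two, abs_sub_comm t ((1 - xx / 2) * N ^ 2),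
    abs_of_nonneg (show 0 ≤ (1 - xx / 2) * N ^ 2 - t by linarith only [h4, hN2])] at h
  have h5 : |t - xx / 2 * N ^ 2| * (0.74 * N ^ 2) ≤ 4 * η * N ^ 4 := by
    have h6 := mul_le_mul_of_nonneg_left h4 (abs_nonneg (t - xx / 2 * N ^ 2))
    linarith
  have h7 : |t - xx / 2 * N ^ 2| * (0.74 * N ^ 2) ≤ (6 * η * N ^ 2) * (0.74 * N ^ 2) := by
    refine h5.trans ?_
    have h8 : 0 ≤ η * N ^ 4 := by positivity
    linarith only [h8]
  exact le_of_mul_le_mul_right h7 (by positivity)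

/-- The polynomial `24 mc n 4`. -/
def pp (N : ℝ) : ℝ := N * (N + 1) * (N + 2) * (N + 3)

theorem pp_sub (N C : ℝ) (hC : 1 ≤ C) (hN : C ≤ N) :
    |(pp N - pp (N - C)) / 24 - C * N ^ 3 / 6| ≤ 4 * C ^ 2 * N ^ 2 := by
  have e : (pp N - pp (N - C)) / 24 - C * N ^ 3 / 6 =
      (-(6 * (C ^ 2 * N ^ 2)) + 4 * (C ^ 3 * N) - C ^ 4 + 18 * (C * N ^ 2) - 18 * (C ^ 2 * N)
        + 6 * C ^ 3 + 22 * (C * N) - 11 * C ^ 2 + 6 * C) / 24 := by
    unfold pp
    ring
  have hN1 : 1 ≤ N := hC.trans hN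
  have hC0 : 0 ≤ C := by linarith
  have hN0 : 0 ≤ N := by linarith
  have m : ∀ a b a' b' : ℕ, a + b ≤ 4 → b ≤ 2 → a' = a → b' = b →
      0 ≤ C ^ a * N ^ b ∧ C ^ a * N ^ b ≤ C ^ 2 * N ^ 2 := by
    intro a b _ _ hab hb _ _
    refine ⟨by positivity, ?_⟩
    rcases le_or_gt a 2 with ha | ha
    · exact mul_le_mul (pow_le_pow_right₀ hC ha) (pow_le_pow_right₀ hN1 hb) (by positivity)
        (by positivity)
    · have h1 : C ^ a * N ^ b = C ^ 2 * (C ^ (a - 2) * N ^ b) := by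
        rw [← mul_assoc, ← pow_add]
        congr 2
        omega
      rw [h1]
      refine mul_le_mul_of_nonneg_left ?_ (by positivity)
      calc C ^ (a - 2) * N ^ b ≤ N ^ (a - 2) * N ^ b :=
            mul_le_mul_of_nonneg_right (pow_le_pow_left₀ hC0 hN _) (by positivity)
        _ = N ^ (a - 2 + b) := by rw [pow_add]
        _ ≤ N ^ 2 := pow_le_pow_right₀ hN1 (by omega)
  have q1 := m 3 1 3 1 (by norm_num) (by norm_num) rfl rfl
  have q2 := m 4 0 4 0 (by norm_num) (by norm_num) rfl rfl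
  have q3 := m 1 2 1 2 (by norm_num) (by norm_num) rfl rfl
  have q4 := m 2 1 2 1 (by norm_num) (by norm_num) rfl rfl
  have q5 := m 3 0 3 0 (by norm_num) (by norm_num) rfl rfl
  have q6 := m 1 1 1 1 (by norm_num) (by norm_num) rfl rfl
  have q7 := m 2 0 2 0 (by norm_num) (by norm_num) rfl rfl
  have q8 := m 1 0 1 0 (by norm_num) (by norm_num) rfl rfl
  have q9 := m 2 2 2 2 (by norm_num) (by norm_num) rfl rfl
  simp only [pow_zero, pow_one, mul_one] at q1 q2 q3 q4 q5 q6 q7 q8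
  rw [e, abs_le]
  constructor <;> linarith [q1.1, q1.2, q2.1, q2.2, q3.1, q3.2, q4.1, q4.2, q5.1, q5.2, q6.1,
    q6.2, q7.1, q7.2, q8.1, q8.2, q9.1]

/-- The number `T` of the triple points off `L_0`. -/
theorem near_T (N C t t' δ η : ℝ) (hη : 0 < η) (hη1 : η ≤ 1 / 1000) (hC : 240 ≤ C)
    (hN : 100 * C ^ 2 ≤ η * N) (ht : 6 * t ≤ N ^ 2) (ht0' : 0 ≤ t')
    (ht' : 6 * t' ≤ N ^ 2) (hn : |t' - xx / 2 * N ^ 2| ≤ 6 * η * N ^ 2)
    (hδ : |δ| ≤ 2 * η * N ^ 3)
    (h : (pp N - pp (N - C)) / 24 - (t - t') * (N * (N + 1) / 2)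
      - t' * (C * (2 * N - C + 1) / 2) + (t - t') * t' + (t - t') * (t - t' - 1) / 2 = δ) :
    |t - t' - xx * C * N| ≤ 40 * C * η * N := by
  have hx := xx_root
  have hx1 := xx_gt
  have hx2 := xx_lt
  have hC0 : 0 < C := by linarith
  have hN0 : 0 < N := by
    by_contra hcon
    have : η * N ≤ 0 := mul_nonpos_of_nonneg_of_nonpos hη.le (not_lt.1 hcon)
    linarith only [this, hN, hC, mul_nonneg (sub_nonneg.2 hC) (sub_nonneg.2 hC)]
  have hNC : 100000 * C ^ 2 ≤ N := by (refine le_of_not_gt fun hng => ?_; linarith only [hN,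
                                        mul_pos (sub_pos.2 hng) (sub_pos.2 hη),
                                        mul_nonneg (sq_nonneg (C)) (sub_nonneg.2 hη1)])
  have hN1 : C ≤ N := by (refine le_of_not_gt fun hng => ?_; linarith only [hN, hC, hη1,
                           mul_nonneg (sub_nonneg.2 hC) (sub_nonneg.2 hC),
                           mul_nonneg (sub_nonneg.2 hη1) (sub_nonneg.2 hC),
                           mul_nonneg (sub_nonneg.2 hη.le) (sub_nonneg.2 hη1),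
                           mul_pos (sub_pos.2 hη) (sub_pos.2 hη),
                           mul_pos (sub_pos.2 hng) (sub_pos.2 hη)])
  have hN2 : 1000 ≤ N := by (refine le_of_not_gt fun hng => ?_; linarith only [hN, hC, hη1,
                              mul_nonneg (sub_nonneg.2 hC) (sub_nonneg.2 hC),
                              mul_nonneg (sub_nonneg.2 hη.le) (sub_nonneg.2 hη1),
                              mul_pos (sub_pos.2 hη) (sub_pos.2 hη),
                              mul_pos (sub_pos.2 hng) (sub_pos.2 hη)])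
  have hN3 : 0 < N ^ 2 := by positivity
  have hN4 : 0 < N ^ 3 := by positivity
  obtain ⟨T, hT⟩ : ∃ T, T = t - t' := ⟨_, rfl⟩
  rw [← hT] at h ⊢
  obtain ⟨P, hP⟩ : ∃ P, P = (pp N - pp (N - C)) / 24 := ⟨_, rfl⟩
  have hPb := pp_sub N C (by linarith) hN1
  rw [← hP] at h hPb
  rw [abs_le] at hPb hn hδ
  -- the error terms
  have hηN : 1000 ≤ η * N := by linarith only [hN, hC,
                                  mul_nonneg (sub_nonneg.2 hC) (sub_nonneg.2 hC)]
  have e1 : 100 * C ^ 2 * N ^ 2 ≤ η * N ^ 3 := by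
    have := mul_le_mul_of_nonneg_left hN hN3.le
    linarith
  have e2 : 1000 * N ^ 2 ≤ η * N ^ 3 := by
    have := mul_le_mul_of_nonneg_left hηN hN3.le
    linarith
  have e3 : 1000 * N ≤ η * N ^ 2 := by
    have := mul_le_mul_of_nonneg_left hηN hN0.le
    linarith
  have e4 : η * N ^ 3 ≤ N ^ 3 / 1000 := by
    have := mul_le_mul_of_nonneg_right hη1 hN4.le
    linarith
  have e5 : 1000 * N ≤ N ^ 2 := by
    have := mul_le_mul_of_nonneg_right hN2 hN0.le
    linarith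
  -- `A` and `B`
  obtain ⟨A, hA⟩ : ∃ A, A = N * (N + 1) / 2 - t' + 1 / 2 := ⟨_, rfl⟩
  obtain ⟨B, hB⟩ : ∃ B, B = P - t' * (C * (2 * N - C + 1) / 2) - δ := ⟨_, rfl⟩
  have hAB : T * (A - T / 2) = B := by
    rw [hA, hB]
    linear_combination -h
  have hTu : T ≤ N ^ 2 / 6 := by rw [hT]; linarith
  have hA1 : N ^ 2 / 4 ≤ A - T / 2 := by
    rw [hA]
    linarith only [hT, hN3, hN2, ht', ht, hη1, hη]
  have hdl : |t' * (C * (2 * N - C + 1) / 2) - xx / 2 * C * N ^ 3| ≤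
      C ^ 2 * N ^ 2 / 12 + 6 * η * C * N ^ 3 := by
    have g1 : t' * (C * (2 * N - C + 1) / 2) - xx / 2 * C * N ^ 3 =
        -(t' * (C * (C - 1) / 2)) + C * N * (t' - xx / 2 * N ^ 2) := by ring
    have g2 : 0 ≤ t' * (C * (C - 1) / 2) := by
      have : 0 ≤ C * (C - 1) := by (refine le_of_not_gt fun hng => ?_; linarith only [sq_nonneg (1 * C),
                                     mul_pos (sub_pos.2 hng) (sub_pos.2 hng),
                                     mul_nonneg (sq_nonneg (1 * C)) (sub_nonneg.2 hC),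
                                     mul_nonneg (sq_nonneg (1 * C)) (sub_nonneg.2 hng.le)])
      positivity
    have g3 : t' * (C * (C - 1) / 2) ≤ C ^ 2 * N ^ 2 / 12 := by
      have g4 : C * (C - 1) / 2 ≤ C ^ 2 / 2 := by linarith only [hC, hη1, hη]
      have g5 : t' * (C * (C - 1) / 2) ≤ N ^ 2 / 6 * (C ^ 2 / 2) :=
        mul_le_mul (by linarith) g4 (by (refine le_of_not_gt fun hng => ?_; linarith only [sq_nonneg (1 * C),
                                          mul_pos (sub_pos.2 hng) (sub_pos.2 hng),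
                                          mul_nonneg (sq_nonneg (1 * C)) (sub_nonneg.2 hC),
                                          mul_nonneg (sq_nonneg (1 * C)) (sub_nonneg.2 hng.le)])) (by positivity)
      linarith
    have g6 : 0 ≤ C * N := by positivity
    have g7 := mul_le_mul_of_nonneg_left hn.2 g6
    have g8 := mul_le_mul_of_nonneg_left hn.1 g6
    rw [g1, abs_le]
    constructor
    · linarith
    · linarith
  rw [abs_le] at hdl
  have hηC : 0 < η * C * N ^ 3 := by positivity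
  have hB1 : |B - xx / 2 * (1 - xx) * C * N ^ 3| ≤ (6 * C + 4) * η * N ^ 3 := by
    have g1 : xx / 2 * (1 - xx) * C * N ^ 3 = C * N ^ 3 / 6 - xx / 2 * C * N ^ 3 := by
      linear_combination (-(C * N ^ 3) / 6) * hx
    rw [g1, hB, abs_le]
    constructor
    · linarith [hPb.1, hPb.2, hdl.1, hdl.2, hδ.1, hδ.2]
    · linarith [hPb.1, hPb.2, hdl.1, hdl.2, hδ.1, hδ.2]
  rw [abs_le] at hB1
  have hcoef1 : 0.0749 ≤ xx / 2 * (1 - xx) := by linarith only [hx2, hx, hη1, hη]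
  have hcoef2 : xx / 2 * (1 - xx) ≤ 0.075 := by linarith only [hx1, hx, hη1, hη]
  have hCN : 0 < C * N ^ 3 := by positivity
  have hηb : (6 * C + 4) * η * N ^ 3 ≤ 0.01 * (C * N ^ 3) := by
    have g1 : (6 * C + 4) * η ≤ 0.01 * C := by linarith only [hC, hη1,
                                                 mul_nonneg (sub_nonneg.2 hη1) (sub_nonneg.2 hC),
                                                 mul_nonneg (sub_nonneg.2 hη.le) (sub_nonneg.2 hη1),
                                                 mul_pos (sub_pos.2 hη) (sub_pos.2 hη)]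
    have := mul_le_mul_of_nonneg_right g1 hN4.le
    linarith
  have hq1 : 0.0749 * (C * N ^ 3) ≤ xx / 2 * (1 - xx) * C * N ^ 3 := by
    have := mul_le_mul_of_nonneg_right hcoef1 hCN.le
    linarith
  have hq2 : xx / 2 * (1 - xx) * C * N ^ 3 ≤ 0.075 * (C * N ^ 3) := by
    have := mul_le_mul_of_nonneg_right hcoef2 hCN.le
    linarith
  have hBpos : 0 < B := by linarith [hB1.1]
  have hBu : B ≤ 0.1 * (C * N ^ 3) := by linarith [hB1.2]
  have hTpos : 0 < T := by
    by_contra hcon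
    have : T * (A - T / 2) ≤ 0 := mul_nonpos_of_nonpos_of_nonneg (not_lt.1 hcon) (by linarith)
    linarith
  have hTC : T ≤ C * N := by
    have g1 : T * (N ^ 2 / 4) ≤ B := by
      rw [← hAB]
      exact mul_le_mul_of_nonneg_left hA1 hTpos.le
    have g2 : T * (N ^ 2 / 4) ≤ (C * N) * (N ^ 2 / 4) := by linarith only [g1, hq2, hηb, hB1.2, hηC,
                                                              e5, e2, hN2, hη1, hη]
    exact le_of_mul_le_mul_right g2 (by positivity)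
  have hA2 : |A - (1 - xx) * N ^ 2 / 2| ≤ 7 * η * N ^ 2 := by
    rw [hA, abs_le]
    constructor
    · linarith [hn.1, hn.2, e3, hN2]
    · linarith [hn.1, hn.2, e3, hN2]
  rw [abs_le] at hA2
  have hfin : |(T - xx * C * N) * ((1 - xx) * N ^ 2 / 2)| ≤ (13 * C + 5) * η * N ^ 3 := by
    have g1 : (T - xx * C * N) * ((1 - xx) * N ^ 2 / 2) =
        -(T * (A - (1 - xx) * N ^ 2 / 2)) + T ^ 2 / 2
          + (B - xx / 2 * (1 - xx) * C * N ^ 3) := by
      linear_combination hAB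
    have g2 : T ^ 2 ≤ C ^ 2 * N ^ 2 := by
      have := pow_le_pow_left₀ hTpos.le hTC 2
      linarith [mul_pow C N 2]
    have g3 : |T * (A - (1 - xx) * N ^ 2 / 2)| ≤ C * N * (7 * η * N ^ 2) := by
      rw [abs_mul, abs_of_pos hTpos]
      exact mul_le_mul hTC (abs_le.2 hA2) (abs_nonneg _) (by positivity)
    rw [abs_le] at g3
    rw [g1, abs_le]
    constructor
    · linarith [g3.1, g3.2, hB1.1, hB1.2, sq_nonneg T]
    · linarith [g3.1, g3.2, hB1.1, hB1.2, sq_nonneg T]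
  have hden : 0.4 * N ^ 2 ≤ (1 - xx) * N ^ 2 / 2 := by
    have := mul_le_mul_of_nonneg_right (show (0.8 : ℝ) ≤ 1 - xx by linarith) hN3.le
    linarith
  rw [abs_mul, abs_of_pos (show 0 < (1 - xx) * N ^ 2 / 2 by linarith)] at hfin
  have g1 : |T - xx * C * N| * (0.4 * N ^ 2) ≤ (13 * C + 5) * η * N ^ 3 :=
    le_trans (mul_le_mul_of_nonneg_left hden (abs_nonneg _)) hfin
  have g2 : |T - xx * C * N| * (0.4 * N ^ 2) ≤ (40 * C * η * N) * (0.4 * N ^ 2) := by
    refine g1.trans ?_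
    have g3 : (13 * C + 5) ≤ 16 * C := by linarith
    have g4 : 0 ≤ η * N ^ 3 := by positivity
    have := mul_le_mul_of_nonneg_right g3 g4
    linarith
  exact le_of_mul_le_mul_right g2 (by positivity)

theorem mc4R (n : ℕ) : ((mc n 4 : ℤ) : ℝ) = pp n / 24 := by
  have h := mc4 n
  have h' : (24 : ℝ) * ((mc n 4 : ℤ) : ℝ) = (n : ℝ) * (n + 1) * (n + 2) * (n + 3) := by
    exact_mod_cast h
  unfold pp
  linarith

theorem mc2R (n : ℕ) : ((mc n 2 : ℤ) : ℝ) = (n : ℝ) * (n + 1) / 2 := by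
  have h := two_mc2 n
  have h' : (2 : ℝ) * ((mc n 2 : ℤ) : ℝ) = (n : ℝ) * (n + 1) := by
    exact_mod_cast h
  linarith

theorem ch2R (t : ℕ) : ((t.choose 2 : ℕ) : ℝ) = (t : ℝ) * (t - 1) / 2 := Nat.cast_choose_two ℝ t

theorem v0R (n t d s : ℕ) : ((v0 n t d s : ℤ) : ℝ) =
    pp n / 24 - t * ((n : ℝ) * (n + 1) / 2) + (t : ℝ) * (t - 1) / 2 - d * n - s := by
  have h1 := mc4R n
  have h2 := mc2R n
  have h3 := ch2R t
  unfold v0
  push_cast at h1 h2 ⊢
  rw [h1, h2, h3]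

/-- The error of the leading form of `v0 (n - c) t 0 0`. -/
theorem v0_lead (N C t : ℝ) (hC : 1 ≤ C) (hN : C ≤ N) (ht0 : 0 ≤ t) (ht : 6 * t ≤ N ^ 2) :
    |pp (N - C) / 24 - t * ((N - C) * (N - C + 1) / 2) + t * (t - 1) / 2 -
      (N ^ 4 / 24 - t * N ^ 2 / 2 + t ^ 2 / 2)| ≤ 8 * C ^ 2 * N ^ 3 := by
  have h1 := pp_sub N C hC hN
  have hN1 : 1 ≤ N := hC.trans hN
  have hC0 : 0 ≤ C := by linarith
  have hN0 : 0 ≤ N := by linarith
  have hC2 : 1 ≤ C ^ 2 := one_le_pow₀ hC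
  have hCC : C ≤ C ^ 2 := by (refine le_of_not_gt fun hng => ?_; linarith only [mul_pos (sub_pos.2 hng) (sub_pos.2 hng),
                               mul_nonneg (sq_nonneg (C)) (sub_nonneg.2 hC),
                               mul_nonneg (sq_nonneg (C)) (sub_nonneg.2 hng.le)])
  have a1 : N ^ 2 ≤ N ^ 3 := pow_le_pow_right₀ hN1 (by norm_num)
  have a2 : N ≤ N ^ 3 := by
    have := pow_le_pow_right₀ hN1 (show 1 ≤ 3 by norm_num)
    linarith
  have a3 : C * N ^ 3 ≤ C ^ 2 * N ^ 3 := mul_le_mul_of_nonneg_right hCC (by positivity)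
  have a4 : N ^ 3 ≤ C ^ 2 * N ^ 3 := le_mul_of_one_le_left (by positivity) hC2
  have a5 : C ^ 2 * N ^ 2 ≤ C ^ 2 * N ^ 3 := mul_le_mul_of_nonneg_left a1 (by positivity)
  have b1 : 0 ≤ t * (C * (2 * N - C)) := by
    have : 0 ≤ C * (2 * N - C) := mul_nonneg hC0 (by linarith)
    positivity
  have b2 : t * (C * (2 * N - C)) ≤ C * N ^ 3 / 3 := by
    have g1 : t * (C * (2 * N - C)) ≤ N ^ 2 / 6 * (C * (2 * N)) := by
      refine mul_le_mul (by linarith) ?_ ?_ (by positivity)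
      · exact mul_le_mul_of_nonneg_left (by linarith) hC0
      · exact mul_nonneg hC0 (by linarith)
    linarith
  have b3 : 0 ≤ t * N := by positivity
  have b4 : t * N ≤ N ^ 3 / 6 := by
    have := mul_le_mul_of_nonneg_right ht hN0
    linarith
  have b5 : 0 ≤ t * C := by positivity
  have b6 : t * C ≤ t * N := mul_le_mul_of_nonneg_left hN ht0
  have b7 : pp N - N ^ 4 = 6 * N ^ 3 + 11 * N ^ 2 + 6 * N := by
    unfold pp
    ring
  have b8 : 0 ≤ C * N ^ 3 := by positivity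
  rw [abs_le] at h1
  have e : pp (N - C) / 24 - t * ((N - C) * (N - C + 1) / 2) + t * (t - 1) / 2 -
      (N ^ 4 / 24 - t * N ^ 2 / 2 + t ^ 2 / 2) =
      (pp N - N ^ 4) / 24 - (pp N - pp (N - C)) / 24 + t * (C * (2 * N - C)) / 2 - t * N / 2
        + t * C / 2 - t / 2 := by ring
  rw [e, b7, abs_le]
  constructor
  · linarith [h1.1, h1.2]
  · linarith [h1.1, h1.2]

end Pool.Agent.KZ.Nm0

namespace Pool.Agent.KZ

open Finset Nm0

theorem num0 (c : ℕ) (hc : 240 ≤ c) (e : ℝ) (he : 0 < e) : ∃ η : ℝ, 0 < η ∧ ∃ n₀ : ℕ,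
    ∀ n, n₀ ≤ n → ∀ t d : ℕ, 50 * d ≤ 21 * n → 6 * t ≤ n ^ 2 → ∀ g : ℤ, 0 ≤ g →
      (g : ℝ) ≤ η * (n : ℝ) ^ 4 → -((n : ℤ) ^ 2) ≤ v0 n t d 0 - g →
      ((v0 n t d 0 - g : ℤ) : ℝ) ≤ η * (n : ℝ) ^ 3 →
      ∃ (t' : ℕ) (b : L1), t = t' + b.T ∧ b.u = t' ∧ b.d = d ∧ b.w = 0 ∧ b.s = 0 ∧
        50 * b.p ≤ 21 * (n - c) ∧ 6 * t' ≤ (n - c) ^ 2 ∧ v0 (n - c) t' b.p 0 = g + b.q ∧
        1 ≤ b.q ∧ Cls1 c n e b := by
  obtain ⟨e₁, he₁⟩ : ∃ e₁, e₁ = min e 1 := ⟨_, rfl⟩
  have he0 : 0 < e₁ := by rw [he₁]; exact lt_min he one_pos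
  have hee : e₁ ≤ e := by rw [he₁]; exact min_le_left _ _
  have he1 : e₁ ≤ 1 := by rw [he₁]; exact min_le_right _ _
  obtain ⟨C, hCdef⟩ : ∃ C : ℝ, C = c := ⟨_, rfl⟩
  have hC : 240 ≤ C := by rw [hCdef]; exact_mod_cast hc
  obtain ⟨η, hη⟩ : ∃ η, η = e₁ / (40 * C) := ⟨_, rfl⟩
  have hη0 : 0 < η := by rw [hη]; positivity
  have hη1 : η ≤ 1 / 1000 := by
    rw [hη, div_le_div_iff₀ (by positivity) (by norm_num)]
    linarith
  have hηe : 40 * C * η = e₁ := by
    rw [hη]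
    field_simp
  refine ⟨η, hη0, ⌈100 * C ^ 2 / η⌉₊, ?_⟩
  intro n hn t d hd ht g hg0 hg hlow hup
  obtain ⟨N, hNdef⟩ : ∃ N : ℝ, N = n := ⟨_, rfl⟩
  have hN : 100 * C ^ 2 ≤ η * N := by
    have h1 : 100 * C ^ 2 / η ≤ N := by
      rw [hNdef]
      exact (Nat.le_ceil _).trans (by exact_mod_cast hn)
    rw [div_le_iff₀ hη0] at h1
    linarith
  have hx1 := xx_gt
  have hx2 := xx_lt
  have hC0 : 0 < C := by linarith
  have hN0 : 0 < N := by
    by_contra hcon
    have : η * N ≤ 0 := mul_nonpos_of_nonneg_of_nonpos hη0.le (not_lt.1 hcon)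
    nlinarith
  have hNC : 100000 * C ^ 2 ≤ N := by
    have := mul_le_mul_of_nonneg_right hη1 hN0.le
    linarith
  have hC2 : 57600 ≤ C ^ 2 := by nlinarith
  have hCC : 240 * C ≤ C ^ 2 := by (refine le_of_not_gt fun hng => ?_; linarith only [mul_pos (sub_pos.2 hng) (sub_pos.2 hng),
                                     mul_nonneg (sq_nonneg (C)) (sub_nonneg.2 hC),
                                     mul_nonneg (sq_nonneg (C)) (sub_nonneg.2 hng.le)])
  have hN1 : 1000 * C ≤ N := by linarith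
  have hN2 : 100000 ≤ N := by linarith
  have hcn : c ≤ n := by
    have : (c : ℝ) ≤ n := by rw [← hCdef, ← hNdef]; linarith
    exact_mod_cast this
  obtain ⟨n', hn'⟩ : ∃ n', n' = n - c := ⟨_, rfl⟩
  have hn'R : (n' : ℝ) = N - C := by
    rw [hn', Nat.cast_sub hcn, hNdef, hCdef]
  obtain ⟨M, hM⟩ : ∃ M : ℝ, M = N - C := ⟨_, rfl⟩
  have hMN : 0.999 * N ≤ M := by linarith
  have hMN' : M ≤ N := by linarith
  have hM0 : 0 < M := by linarith
  have hn'0 : 0 < n' := by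
    have : (0 : ℝ) < n' := by rw [hn'R]; linarith
    exact_mod_cast this
  rw [← hn']
  have hN3 : 0 < N ^ 2 := by positivity
  have hN4 : 0 < N ^ 3 := by positivity
  have hN5 : 0 < N ^ 4 := by positivity
  have hηN : 5000000 ≤ η * N := by linarith
  have e1 : 100 * C ^ 2 * N ^ 3 ≤ η * N ^ 4 := by
    have := mul_le_mul_of_nonneg_left hN hN4.le
    linarith
  have e2 : 1000 * N ^ 2 ≤ η * N ^ 3 := by
    have := mul_le_mul_of_nonneg_left hηN hN3.le
    linarith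
  have e3 : 100000 * N ≤ N ^ 2 := by
    have := mul_le_mul_of_nonneg_right hN2 hN0.le
    linarith
  have e4 : 100000 * N ^ 2 ≤ N ^ 3 := by
    have := mul_le_mul_of_nonneg_right hN2 hN3.le
    linarith
  have e5 : 100000 * N ^ 3 ≤ N ^ 4 := by
    have := mul_le_mul_of_nonneg_right hN2 hN4.le
    linarith
  have e6 : η * N ^ 4 ≤ N ^ 4 / 1000 := by
    have := mul_le_mul_of_nonneg_right hη1 hN5.le
    linarith
  have e7 : 1000 * N ^ 3 ≤ η * N ^ 4 := by
    have := mul_le_mul_of_nonneg_left hηN hN4.le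
    linarith
  have hM2 : 0.998 * N ^ 2 ≤ M ^ 2 := by nlinarith
  have hM2' : M ^ 2 ≤ N ^ 2 := pow_le_pow_left₀ hM0.le hMN' 2
  have hgN : (g : ℝ) ≤ η * N ^ 4 := by rw [hNdef]; exact hg
  have hg0R : (0 : ℝ) ≤ g := by exact_mod_cast hg0
  -- the leading form of the trace
  have hlead : ∀ t' : ℕ, 6 * (t' : ℝ) ≤ N ^ 2 →
      |((v0 n' t' 0 0 : ℤ) : ℝ) - (N ^ 4 / 24 - t' * N ^ 2 / 2 + (t' : ℝ) ^ 2 / 2)| ≤
        η * N ^ 4 / 10 := by
    intro t' ht'
    have h1 := v0_lead N C t' (by linarith) (by linarith) (Nat.cast_nonneg _) ht'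
    have h2 := v0R n' t' 0 0
    rw [hn'R] at h2
    have h3 : ((v0 n' t' 0 0 : ℤ) : ℝ) = pp (N - C) / 24 - t' * ((N - C) * (N - C + 1) / 2)
        + t' * (t' - 1) / 2 := by
      rw [h2]
      push_cast
      ring
    rw [h3]
    refine h1.trans ?_
    linarith
  -- `t'`
  obtain ⟨Bd, hBd⟩ : ∃ Bd, Bd = n' ^ 2 / 6 := ⟨_, rfl⟩
  have hBd1 : 6 * Bd ≤ n' ^ 2 := by rw [hBd]; exact Nat.mul_div_le _ _
  have hBd2 : n' ^ 2 ≤ 6 * Bd + 5 := by rw [hBd]; omega
  have hBdR : 6 * (Bd : ℝ) ≤ M ^ 2 := by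
    rw [hM, ← hn'R]
    exact_mod_cast hBd1
  have hBdR2 : M ^ 2 ≤ 6 * (Bd : ℝ) + 5 := by
    rw [hM, ← hn'R]
    exact_mod_cast hBd2
  let P : ℕ → Prop := fun t' => g + 1 ≤ v0 n' t' 0 0
  have hP0 : P 0 := by
    show g + 1 ≤ v0 n' 0 0 0
    have h1 := hlead 0 (by push_cast; linarith)
    rw [abs_le] at h1
    push_cast at h1
    have h2 : ((g + 1 : ℤ) : ℝ) ≤ ((v0 n' 0 0 0 : ℤ) : ℝ) := by
      push_cast
      linarith [h1.1]
    exact_mod_cast h2
  have hPB : ¬ P Bd := by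
    show ¬ g + 1 ≤ v0 n' Bd 0 0
    intro hcon
    have h1 := hlead Bd (by linarith)
    rw [abs_le] at h1
    have h2 : ((g + 1 : ℤ) : ℝ) ≤ ((v0 n' Bd 0 0 : ℤ) : ℝ) := by exact_mod_cast hcon
    push_cast at h2
    have h3 : 0.16 * N ^ 2 ≤ (Bd : ℝ) := by linarith
    have h4 : (Bd : ℝ) ≤ N ^ 2 / 6 := by linarith
    have h5 : (Bd : ℝ) ^ 2 ≤ N ^ 4 / 36 := by
      have := pow_le_pow_left₀ (Nat.cast_nonneg Bd) h4 2
      calc (Bd : ℝ) ^ 2 ≤ (N ^ 2 / 6) ^ 2 := this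
        _ = N ^ 4 / 36 := by ring
    have h6 : 0.16 * N ^ 4 ≤ Bd * N ^ 2 := by
      have := mul_le_mul_of_nonneg_right h3 hN3.le
      calc 0.16 * N ^ 4 = 0.16 * N ^ 2 * N ^ 2 := by ring
        _ ≤ Bd * N ^ 2 := this
    linarith [h1.2]
  classical
  obtain ⟨t', ht'def⟩ : ∃ t', t' = Nat.findGreatest P Bd := ⟨_, rfl⟩
  have hPt' : P t' := by
    rw [ht'def]
    exact Nat.findGreatest_spec (Nat.zero_le _) hP0
  have ht'B : t' ≤ Bd := by
    rw [ht'def]
    exact Nat.findGreatest_le Bd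
  have ht'lt : t' < Bd := by
    rcases ht'B.lt_or_eq with h | h
    · exact h
    · exact absurd (h ▸ hPt') hPB
  have hPt'1 : ¬ P (t' + 1) := by
    refine Nat.findGreatest_is_greatest (n := Bd) (P := P) ?_ ht'lt
    rw [← ht'def]
    exact Nat.lt_succ_self _
  have hW1 : g + 1 ≤ v0 n' t' 0 0 := hPt'
  have hW2 : v0 n' (t' + 1) 0 0 < g + 1 := not_le.1 hPt'1
  rw [v0_t] at hW2
  have ht'R : 6 * (t' : ℝ) ≤ M ^ 2 := by
    have : (t' : ℝ) ≤ Bd := by exact_mod_cast ht'B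
    linarith
  have hmcM : ((mc n' 2 : ℤ) : ℝ) = M * (M + 1) / 2 := by
    rw [mc2R, hn'R, hM]
  have hW2R : ((v0 n' t' 0 0 : ℤ) : ℝ) < g + 1 + (M * (M + 1) / 2 - t') := by
    rw [← hmcM]
    have : v0 n' t' 0 0 < g + 1 + (mc n' 2 - t') := by linarith
    exact_mod_cast this
  have hW1R : (g : ℝ) + 1 ≤ ((v0 n' t' 0 0 : ℤ) : ℝ) := by exact_mod_cast hW1
  have ht'0 : (0 : ℝ) ≤ t' := Nat.cast_nonneg _
  have hnear : |(t' : ℝ) - xx / 2 * N ^ 2| ≤ 6 * η * N ^ 2 := by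
    apply near_t N t' η hN0 hη0 (by linarith)
    have h1 := hlead t' (by linarith)
    rw [abs_le] at h1 ⊢
    constructor
    · linarith [h1.1, h1.2]
    · have : M * (M + 1) / 2 ≤ N ^ 2 := by linarith only [hM2', e3, hM, hC2, hNC, hη1, hη0, hC]
      linarith [h1.1, h1.2]
  have hnear' := hnear
  rw [abs_le] at hnear'
  have e8 : η * N ^ 2 ≤ N ^ 2 / 1000 := by
    have := mul_le_mul_of_nonneg_right hη1 hN3.le
    linarith
  have e9 : 0.0917 * N ^ 2 ≤ xx / 2 * N ^ 2 := by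
    have := mul_le_mul_of_nonneg_right (show (0.0917 : ℝ) ≤ xx / 2 by linarith) hN3.le
    linarith
  have ht'low : 0.0857 * N ^ 2 ≤ (t' : ℝ) := by linarith [hnear'.1]
  -- `y` and `r`
  obtain ⟨w, hw⟩ : ∃ w : ℕ, (w : ℤ) = v0 n' t' 0 0 - g - 1 :=
    ⟨(v0 n' t' 0 0 - g - 1).toNat, Int.toNat_of_nonneg (by linarith)⟩
  obtain ⟨y, hy⟩ : ∃ y, y = w / n' := ⟨_, rfl⟩
  obtain ⟨r, hr⟩ : ∃ r, r = w % n' + 1 := ⟨_, rfl⟩
  have hwyr : w + 1 = n' * y + r := by
    have := Nat.div_add_mod w n'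
    rw [hy, hr]
    omega
  have hr1 : 1 ≤ r := by omega
  have hrn : r ≤ n' := by
    have := Nat.mod_lt w hn'0
    omega
  have hwR : (w : ℝ) = ((v0 n' t' 0 0 : ℤ) : ℝ) - g - 1 := by exact_mod_cast hw
  have hyM : (y : ℝ) * M ≤ M * (M + 1) / 2 - t' := by
    have h1 : n' * y ≤ w := by rw [hy]; exact Nat.mul_div_le _ _
    have h2 : (n' : ℝ) * y ≤ w := by exact_mod_cast h1
    rw [hn'R, ← hM] at h2
    linarith
  have hy42 : (y : ℝ) ≤ 0.42 * M := by
    have h1 : (y : ℝ) * M ≤ 0.42 * M * M := by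
      linarith only [hyM, e9, e8, hnear'.1, hM2', e3, hM, hC2, hNC, hη1, hη0, hC]
    exact le_of_mul_le_mul_right h1 hM0
  have hy50 : 50 * y ≤ 21 * n' := by
    have : (50 : ℝ) * y ≤ 21 * n' := by
      rw [hn'R, ← hM]
      linarith
    exact_mod_cast this
  have hv : v0 n' t' y 0 = g + r := by
    have h1 : v0 n' t' y 0 = v0 n' t' 0 0 - y * n' := by
      unfold v0
      push_cast
      ring
    have h2 : (w : ℤ) + 1 = n' * y + r := by exact_mod_cast hwyr
    rw [h1]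
    linarith
  -- `T`
  have hrR : (r : ℝ) ≤ N := by
    have : (r : ℝ) ≤ n' := by exact_mod_cast hrn
    rw [hn'R] at this
    linarith
  have hr0 : (0 : ℝ) ≤ r := Nat.cast_nonneg _
  have hy0 : (0 : ℝ) ≤ y := Nat.cast_nonneg _
  have hd0 : (0 : ℝ) ≤ d := Nat.cast_nonneg _
  have hdR : (d : ℝ) ≤ 0.42 * N := by
    have : (50 : ℝ) * d ≤ 21 * n := by exact_mod_cast hd
    rw [← hNdef] at this
    linarith
  have htR : 6 * (t : ℝ) ≤ N ^ 2 := by
    rw [hNdef]
    exact_mod_cast ht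
  have hlowR : -(N ^ 2) ≤ ((v0 n t d 0 : ℤ) : ℝ) - g := by
    rw [hNdef]
    exact_mod_cast hlow
  have hupR : ((v0 n t d 0 : ℤ) : ℝ) - g ≤ η * N ^ 3 := by
    rw [hNdef]
    push_cast at hup
    exact hup
  have hvR : ((v0 n' t' y 0 : ℤ) : ℝ) = g + r := by
    rw [hv]
    push_cast
    ring
  have hdN : (d : ℝ) * N ≤ 0.42 * N ^ 2 := by
    have := mul_le_mul_of_nonneg_right hdR hN0.le
    linarith
  have hyM' : (y : ℝ) * M ≤ 0.42 * N ^ 2 := by
    have := mul_le_mul_of_nonneg_right hy42 hM0.le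
    linarith
  have hyM0 : 0 ≤ (y : ℝ) * M := by positivity
  have hdN0 : 0 ≤ (d : ℝ) * N := by positivity
  have hT := near_T N C t t' (((v0 n t d 0 : ℤ) : ℝ) - g - r + d * N - y * M) η hη0 hη1 hC hN
    htR ht'0 (by linarith) hnear (by
      rw [abs_le]
      constructor
      · linarith
      · linarith) (by
      have h1 := v0R n t d 0
      have h2 := v0R n' t' y 0
      rw [hvR] at h2
      rw [hn'R] at h2
      rw [h1, ← hNdef, hM]
      push_cast at h2 ⊢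
      linear_combination h2)
  rw [hηe] at hT
  have hT' := hT
  rw [abs_le] at hT'
  have hTlow : 43 * N ≤ (t : ℝ) - t' := by
    have h1 : 44 * N ≤ xx * C * N := by
      have h2 : 44 ≤ xx * C := by
        calc (44 : ℝ) ≤ 0.18350 * 240 := by norm_num
          _ ≤ xx * C := mul_le_mul hx1.le hC (by norm_num) (by linarith)
      exact mul_le_mul_of_nonneg_right h2 hN0.le
    have h3 : e₁ * N ≤ N := by
      have := mul_le_mul_of_nonneg_right he1 hN0.le
      linarith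
    linarith [hT'.1]
  have htt : t' ≤ t := by
    have : (t' : ℝ) ≤ t := by linarith
    exact_mod_cast this
  have hTn : 2 * y + 3 * r ≤ t - t' := by
    have h1 : ((2 * y + 3 * r : ℕ) : ℝ) ≤ ((t - t' : ℕ) : ℝ) := by
      rw [Nat.cast_sub htt]
      push_cast
      linarith
    exact_mod_cast h1
  have hbT : (⟨t - t' - 2 * y - 3 * r, y, r, t', d, 0, 0⟩ : L1).T = t - t' := by
    show t - t' - 2 * y - 3 * r + 2 * y + 3 * r = t - t'
    omega
  have hn'n : n' ≤ n := by omega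
  refine ⟨t', ⟨t - t' - 2 * y - 3 * r, y, r, t', d, 0, 0⟩, ?_, rfl, rfl, rfl, rfl, hy50, ?_, hv,
    hr1, ?_⟩
  · rw [hbT]
    omega
  · exact le_trans (Nat.mul_le_mul_left 6 ht'B) hBd1
  · refine ⟨⟨?_, ?_, ?_, ?_⟩, ?_⟩
    · show 50 * y ≤ 21 * n
      omega
    · show 10 * r ≤ 11 * n
      omega
    · show 100 * d ≤ 43 * n
      omega
    · show 10 * 0 ≤ 9 * n
      omega
    · rw [hbT, Nat.cast_sub htt, ← hNdef, ← hCdef]
      refine hT.trans ?_
      exact mul_le_mul_of_nonneg_right hee hN0.le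

end Pool.Agent.KZ
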