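import Pool.Agent.KZ.Num.Add
import Pool.Agent.KZ.Num.N1R

/-!
# KZ4: the numbers for the step from the level `1` to the level `2`

`x = xx = 1 - √(2/3)`, `3 x^2 - 6 x + 1 = 0`, `.18350 < x < .18351`.  `k = 5` if `a.T > x c n`, else
`k = 6`; `b.T = c^2 / k`: `b.p = min (a.p) (.42 c + 1)`, `b.q = min (a.q) (1.1 c + 1)`,
`b.d = min (a.d) (.43 c + 1)`, `b.r = r`, the rest of `b.T` are plain triple points, so the linear
bounds for `a'` hold again at `n - c`, and `|a'.T - x c (n - c)| ≤ e (n - c)` because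
`c^2/6 < x c^2 < c^2/5` and `e` is small against the differences.  `a'.u` = the largest number with
`v1 c (n - c) ⟨..⟩ ≥ g + 1` for `a'.w = 0`, then `a'.w = b.pu ≤ .83 n`, then `r ∈ [1, c]`.
`b.u = a.u - a'.u - 2 b.pu`, `b.U = a.u - a'.u` is estimated in `est3`.
-/

set_option autoImplicit false

namespace Pool.Agent.KZ

open Finset

/-- `a` is split into the trace `a'` and the residual `b`. -/
structure Split (a a' : L1) (b : L2) : Prop where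
  t : a.t = a'.t + b.t + 3 * b.r
  p : a.p = a'.p + b.p
  q : a.q = a'.q + b.q
  u : a.u = a'.u + b.u + 2 * b.pu
  d : a.d = a'.d + b.d
  w : a.w = b.w
  y : b.y = a'.t
  py : b.py = a'.p
  qy : b.qy = a'.q
  x : b.x = a'.u
  z : b.z = a'.d
  pu : a'.w = b.pu

/-- The dependence on the numbers `u`, `w`. -/
private theorem v1_uw (c n t p q u d w : ℕ) :
    v1 c n ⟨t, p, q, u, d, w, 0⟩ = v1 c n ⟨t, p, q, 0, d, 0, 0⟩ -
      u * (dl c n - (t + 2 * p + 3 * q : ℕ)) - w * c := by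
  simp only [v1, L1.T]
  push_cast
  ring

private theorem divide (R D : ℤ) (c : ℕ) (hc : 0 < c) (hR : 0 ≤ R) (hD : 0 < D) :
    ∃ u w r : ℕ, R + 1 = u * D + w * c + r ∧ 1 ≤ r ∧ r ≤ c ∧ ((w * c + r : ℕ) : ℤ) ≤ D := by
  have h1 := Int.emod_add_mul_ediv R D
  have h2 := Int.emod_nonneg R hD.ne'
  have h3 := Int.emod_lt_of_pos R hD
  have h4 := Int.ediv_nonneg hR hD.le
  obtain ⟨u, hu⟩ := Int.eq_ofNat_of_zero_le h4
  obtain ⟨ρ, hρ⟩ := Int.eq_ofNat_of_zero_le h2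
  have h5 := Nat.div_add_mod ρ c
  have h6 := Nat.mod_lt ρ hc
  refine ⟨u, ρ / c, ρ % c + 1, ?_, by omega, by omega, ?_⟩
  · have h7 : ((ρ / c * c + (ρ % c + 1) : ℕ) : ℤ) = ρ + 1 := by
      have : ρ / c * c + (ρ % c + 1) = ρ + 1 := by
        rw [mul_comm]
        omega
      rw [this]
      push_cast
      ring
    rw [hu, hρ] at h1
    push_cast at h7 ⊢
    linarith
  · have h7 : ρ / c * c + (ρ % c + 1) = ρ + 1 := by
      rw [mul_comm]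
      omega
    rw [h7]
    push_cast
    omega

private theorem core (c n k M : ℕ) (hc : 240 ≤ c) (e e₃ η : ℝ) (he : 0 < e) (he₃ : 0 < e₃)
    (he₃1 : e₃ ≤ 1) (he1 : 12 * (c : ℝ) ^ 2 * e ≤ e₃) (hη : 12 * (c : ℝ) ^ 2 * η = e₃)
    (hn : 100 * (c : ℝ) ^ 4 ≤ e₃ * n) (hk : k = 5 ∨ k = 6) (hM : k * M = c ^ 2)
    (a : L1) (hC : Cls1 c n e a) (hs : a.s = 0) (g : ℤ) (hg0 : 0 ≤ g)
    (hg1 : (g : ℝ) ≤ η * (n : ℝ) ^ 3) (h1 : -((c : ℤ) * n) ≤ v1 c n a - g)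
    (h2 : ((v1 c n a - g : ℤ) : ℝ) ≤ η * (n : ℝ) ^ 2)
    (hT : |(a.T : ℝ) - M - xx * c * (n - c)| ≤ e * (n - c)) :
    ∃ (a' : L1) (b : L2), Split a a' b ∧ a'.s = 0 ∧ Cls1 c (n - c) e a' ∧
      v1 c (n - c) a' = g + b.r ∧ 1 ≤ b.r ∧ Cls2 c n e₃ k b := by
  obtain ⟨⟨sp, sq, sd, sw⟩, sT⟩ := hC
  obtain ⟨hx00, hx1⟩ := xx_bd
  have hx0 : (0.1835 : ℝ) < xx := by linarith only [hx00]
  have hx := xx_eq
  -- real sizes
  have cR : (240 : ℝ) ≤ c := by exact_mod_cast hc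
  have hc2 : (57600 : ℝ) ≤ (c : ℝ) ^ 2 := by nlinarith only [cR]
  have hc4 : (c : ℝ) ^ 2 ≤ (c : ℝ) ^ 4 := by
    have t : (c : ℝ) ^ 4 = (c : ℝ) ^ 2 * (c : ℝ) ^ 2 := by ring
    rw [t]
    exact le_mul_of_one_le_left (by positivity) (by linarith only [hc2])
  have hn0 : (0 : ℝ) ≤ n := Nat.cast_nonneg n
  have hn4 : 100 * (c : ℝ) ^ 4 ≤ n := by
    refine le_trans hn ?_
    exact mul_le_of_le_one_left hn0 he₃1
  have hnc2 : 100 * (c : ℝ) ^ 2 ≤ n := by linarith only [hn4, hc4]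
  have hcn2 : (c : ℝ) ^ 2 ≤ n := by linarith only [hnc2, hc2]
  have he' : e ≤ 1 := by nlinarith only [he1, he₃1, hc2, he]
  have hη0 : 0 < η := by nlinarith only [hη, he₃, hc2]
  have hη1 : η ≤ 1 := by nlinarith only [hη, he₃1, hc2, hη0]
  have nN : 100 * c ^ 2 ≤ n := by exact_mod_cast hnc2
  have nc : 240 * c ≤ c ^ 2 := by nlinarith only [hc]
  have hM5 : 5 * M ≤ c ^ 2 := by rcases hk with rfl | rfl <;> omega
  have hM6 : c ^ 2 ≤ 6 * M := by rcases hk with rfl | rfl <;> omega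
  have hM40 : 40 * c ≤ M := by omega
  have hMR5 : 5 * (M : ℝ) ≤ (c : ℝ) ^ 2 := by exact_mod_cast hM5
  have ncR : 240 * (c : ℝ) ≤ (c : ℝ) ^ 2 := by exact_mod_cast nc
  have hTd : a.T = a.t + 2 * a.p + 3 * a.q := rfl
  have hTR : (a.T : ℝ) = a.t + 2 * a.p + 3 * a.q := by rw [hTd]; push_cast; ring
  have spR : 50 * (a.p : ℝ) ≤ 21 * n := by exact_mod_cast sp
  have sqR : 10 * (a.q : ℝ) ≤ 11 * n := by exact_mod_cast sq
  have sdR : 100 * (a.d : ℝ) ≤ 43 * n := by exact_mod_cast sd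
  have swR : 10 * (a.w : ℝ) ≤ 9 * n := by exact_mod_cast sw
  have hxcn0 : 44 * (n : ℝ) ≤ xx * c * n := by
    have t : (44 : ℝ) ≤ xx * c := by nlinarith only [hx0, cR]
    exact mul_le_mul_of_nonneg_right t hn0
  have hen : e * n ≤ n := mul_le_of_le_one_left hn0 he'
  obtain ⟨sT1, sT2⟩ := abs_le.1 sT
  have htM : M ≤ a.t := by
    have t : (M : ℝ) ≤ a.t := by linarith only [sT1, hTR, spR, sqR, hxcn0, hen, hcn2, hMR5, hn0]
    exact_mod_cast t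
  -- the numbers
  obtain ⟨bp, hbp⟩ : ∃ b, b = min a.p (21 * c / 50 + 1) := ⟨_, rfl⟩
  obtain ⟨bq, hbq⟩ : ∃ b, b = min a.q (11 * c / 10 + 1) := ⟨_, rfl⟩
  obtain ⟨bd, hbd⟩ : ∃ b, b = min a.d (43 * c / 100 + 1) := ⟨_, rfl⟩
  obtain ⟨t', ht'⟩ : ∃ b, b = a.t - (M - 2 * bp - 3 * bq) := ⟨_, rfl⟩
  obtain ⟨p', hp'⟩ : ∃ b, b = a.p - bp := ⟨_, rfl⟩
  obtain ⟨q', hq'⟩ : ∃ b, b = a.q - bq := ⟨_, rfl⟩
  obtain ⟨d', hd'⟩ : ∃ b, b = a.d - bd := ⟨_, rfl⟩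
  have f1 : t' + (M - 2 * bp - 3 * bq) = a.t := by omega
  have f2 : p' + bp = a.p := by omega
  have f3 : q' + bq = a.q := by omega
  have f4 : d' + bd = a.d := by omega
  have f5 : 50 * p' ≤ 21 * (n - c) := by omega
  have f6 : 10 * q' ≤ 11 * (n - c) := by omega
  have f7 : 100 * d' ≤ 43 * (n - c) := by omega
  have f8 : 2 * bp + 3 * bq + 3 * c ≤ M := by omega
  have f9 : 50 * bp ≤ 21 * c + 50 := by omega
  have f10 : 10 * bq ≤ 11 * c + 10 := by omega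
  have f11 : 100 * bd ≤ 43 * c + 100 := by omega
  have f12 : t' + 2 * p' + 3 * q' = a.T - M := by omega
  have f13 : M ≤ a.T := by omega
  have fN : ((t' + 2 * p' + 3 * q' : ℕ) : ℝ) = a.T - M := by
    rw [f12, Nat.cast_sub f13]
  have hncR : ((n - c : ℕ) : ℝ) = n - c := by
    rw [Nat.cast_sub (by omega)]
  -- the value for `u = 0`, `w = 0`
  obtain ⟨N', hN'⟩ : ∃ x : ℝ, x = (a.T : ℝ) - M := ⟨_, rfl⟩
  obtain ⟨A, hA⟩ : ∃ A, A = v1 c (n - c) ⟨t', p', q', 0, d', 0, 0⟩ := ⟨_, rfl⟩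
  have hAR : (A : ℝ) = P4 (n - c) - P4 (n - 2 * c) - N' * ((n - c) * (n - c + 1) / 2) +
      N' * (N' - 1) / 2 + p' * (n - 2 * c) + q' - d' * (n - c) := by
    have t := v1_cast c (n - c) (by omega) ⟨t', p', q', 0, d', 0, 0⟩
    have t2 : ((n : ℝ) - c - c) = n - 2 * c := by ring
    have t3 : (((⟨t', p', q', 0, d', 0, 0⟩ : L1).T : ℕ) : ℝ) = N' := by
      rw [hN', ← fN]
      rfl
    rw [← hA, hncR, t2, t3] at t
    rw [t]
    push_cast
    ring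
  obtain ⟨D, hD⟩ : ∃ D, D = dl c (n - c) - (t' + 2 * p' + 3 * q' : ℕ) := ⟨_, rfl⟩
  have hDR : (D : ℝ) = c * (n - c) - c * (c - 1) / 2 - N' := by
    rw [hD, Int.cast_sub, dl_cast c (n - c) (by omega), hncR, Int.cast_natCast, fN, hN']
  have hN1 : |N' - xx * c * n| ≤ e * n + (c : ℝ) ^ 2 := by
    rw [hN', abs_le]
    have t : (0 : ℝ) ≤ M := Nat.cast_nonneg M
    constructor <;> linarith only [sT1, sT2, hMR5, t, hc2]
  have hxcn1 : xx * c * n ≤ 1 / 2 * (c * n) := by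
    have t : 0 ≤ (c : ℝ) * n := by positivity
    nlinarith only [t, hx1]
  have h240 : 240 * (n : ℝ) ≤ c * n := mul_le_mul_of_nonneg_right cR hn0
  have hTn : (a.T : ℝ) ≤ c * n := by linarith only [sT2, hxcn1, hen, h240, hn0]
  have hMR0 : (0 : ℝ) ≤ M := Nat.cast_nonneg M
  have hN0 : 0 ≤ N' := by
    rw [hN', ← fN]
    exact Nat.cast_nonneg _
  have hN2 : N' ≤ c * n := by rw [hN']; linarith only [hTn, hMR0]
  have hp1 : (p' : ℝ) ≤ n := by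
    have t : p' ≤ n := by omega
    exact_mod_cast t
  have hq1 : (q' : ℝ) ≤ 2 * n := by
    have t : q' ≤ 2 * n := by omega
    exact_mod_cast t
  have hd1 : (d' : ℝ) ≤ n := by
    have t : d' ≤ n := by omega
    exact_mod_cast t
  have h2cn : 2 * (c : ℝ) ≤ n := by
    have t : 2 * c ≤ n := by omega
    exact_mod_cast t
  have E1 := est1 cR h2cn hN1 hN0 hN2 (Nat.cast_nonneg p') hp1 (Nat.cast_nonneg q') hq1
    (Nat.cast_nonneg d') hd1
  rw [← hAR] at E1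
  have E0 := den1 cR hcn2 he' hx1 hN1
  rw [← hDR] at E0
  have hD0 : 0 < D := by
    have t : (0 : ℝ) < D := by linarith only [E0, hcn2, hc2]
    exact_mod_cast t
  have hgR : (0 : ℝ) ≤ g := by exact_mod_cast hg0
  have hn3 : (0 : ℝ) ≤ (n : ℝ) ^ 3 := by positivity
  have hAg : 0 ≤ A - g - 1 := by
    have t1 : (17 : ℝ) ≤ c / 6 - xx * c / 2 := by nlinarith only [cR, hx1]
    have t2 : (17 : ℝ) * (n : ℝ) ^ 3 ≤ (c / 6 - xx * c / 2) * (n : ℝ) ^ 3 :=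
      mul_le_mul_of_nonneg_right t1 hn3
    have t3 : e * (n : ℝ) ^ 3 ≤ (n : ℝ) ^ 3 := mul_le_of_le_one_left hn3 he'
    have t4 : η * (n : ℝ) ^ 3 ≤ (n : ℝ) ^ 3 := mul_le_of_le_one_left hn3 hη1
    have t5 : 100 * (c : ℝ) ^ 2 * (n : ℝ) ^ 2 ≤ (n : ℝ) ^ 3 := by
      have := mul_le_mul_of_nonneg_right hnc2 (sq_nonneg (n : ℝ))
      have e : (n : ℝ) * (n : ℝ) ^ 2 = (n : ℝ) ^ 3 := by ring
      rwa [e] at this
    have t6 : (1 : ℝ) ≤ (n : ℝ) ^ 3 := one_le_pow₀ (by linarith only [hcn2, hc2])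
    have t7 : (0 : ℝ) ≤ (c : ℝ) ^ 2 * (n : ℝ) ^ 2 := by positivity
    have t8 := (abs_le.1 E1).1
    have t : (0 : ℝ) ≤ ((A - g - 1 : ℤ) : ℝ) := by
      push_cast
      linarith only [t2, t3, t4, t5, t6, t7, t8, hg1]
    exact_mod_cast t
  obtain ⟨u, w, r, hdiv, hr1, hr2, hwr⟩ := divide (A - g - 1) D c (by omega) hAg hD0
  have hdivR : (A : ℝ) - g = u * D + w * c + r := by
    have t := congrArg (fun z : ℤ => (z : ℝ)) hdiv
    push_cast at t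
    linarith only [t]
  have hwrR : (w : ℝ) * c + r ≤ D := by exact_mod_cast hwr
  have hr0R : (0 : ℝ) ≤ r := Nat.cast_nonneg r
  have hr1R : (1 : ℝ) ≤ r := by exact_mod_cast hr1
  have hr2R : (r : ℝ) ≤ c := by exact_mod_cast hr2
  have hw0R : (0 : ℝ) ≤ w := Nat.cast_nonneg w
  -- the bound for `w`
  have hDb : (D : ℝ) ≤ 0.8165 * (c * n) + n := by
    rw [hDR, hN']
    have t : c * (n - c) = c * (n : ℝ) - (c : ℝ) ^ 2 := by ring
    have t2 : (c : ℝ) * (c - 1) = (c : ℝ) ^ 2 - c := by ring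
    have t3 : 0.1835 * ((c : ℝ) * n) ≤ xx * c * n := by
      have t : 0 ≤ (c : ℝ) * n := by positivity
      nlinarith only [t, hx0]
    rw [t, t2]
    linarith only [sT1, hen, hMR5, t3, hc2, cR, ncR]
  have hw82 : 100 * (w : ℝ) ≤ 82.5 * n := by
    have t1 : (w : ℝ) * c ≤ 0.8165 * (c * n) + n := by linarith only [hwrR, hDb, hr0R]
    have t2 : (w : ℝ) * c ≤ 0.825 * n * c := by linarith only [t1, h240]
    have t3 := le_of_mul_le_mul_right t2 (by linarith only [cR] : (0 : ℝ) < c)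
    linarith only [t3]
  have hwN : 1000 * w ≤ 825 * n := by
    have t : 1000 * (w : ℝ) ≤ 825 * n := by linarith only [hw82]
    exact_mod_cast t
  have hDcn : (D : ℝ) ≤ c * n := by linarith only [hDb, h240, hn0]
  -- the bound for `u`
  have E2 := est2 (R := (w : ℝ) * c + r) cR hcn2 he.le he' hx hx0 hx1 hN1 E1 hgR hg1
    (by positivity) (by linarith only [hwrR, hDcn]) (by rw [← hDR]; linarith only [hdivR] :
      (u : ℝ) * (c * (n - c) - c * (c - 1) / 2 - N') = A - g - ((w : ℝ) * c + r))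
  -- the bound for `U`
  have hv' : v1 c (n - c) ⟨t', p', q', u, d', w, 0⟩ = g + r := by
    rw [v1_uw, ← hA, ← hD]
    linarith only [hdiv]
  obtain ⟨κ, hκ⟩ : ∃ κ : ℝ, κ = 1 / k := ⟨_, rfl⟩
  have hκ0 : 1 / 6 ≤ κ := by rcases hk with rfl | rfl <;> rw [hκ] <;> norm_num
  have hκ1 : κ ≤ 1 / 5 := by rcases hk with rfl | rfl <;> rw [hκ] <;> norm_num
  have hMκ : (M : ℝ) = (c : ℝ) ^ 2 * κ := by
    have t : (k : ℝ) * M = (c : ℝ) ^ 2 := by exact_mod_cast hM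
    have t2 : (k : ℝ) ≠ 0 := by rcases hk with rfl | rfl <;> norm_num
    rw [hκ, ← t]
    field_simp
  have hbp1 : (bp : ℝ) ≤ c := by
    have t : bp ≤ c := by omega
    exact_mod_cast t
  have hbq1 : (bq : ℝ) ≤ 2 * c := by
    have t : bq ≤ 2 * c := by omega
    exact_mod_cast t
  have hbd1 : (bd : ℝ) ≤ c := by
    have t : bd ≤ c := by omega
    exact_mod_cast t
  have hap1 : (a.p : ℝ) ≤ n := by linarith only [spR, hn0]
  have haw1 : (a.w : ℝ) ≤ n := by linarith only [swR, hn0]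
  have hw1R : (w : ℝ) ≤ n := by linarith only [hw82, hn0]
  obtain ⟨δ, hδ⟩ : ∃ δ : ℝ, δ = ((v1 c n a - g : ℤ) : ℝ) := ⟨_, rfl⟩
  have hδ0 : -((c : ℝ) * n) ≤ δ := by
    rw [hδ]
    exact_mod_cast h1
  rw [← hδ] at h2
  have f2R : (a.p : ℝ) = p' + bp := by rw [← f2]; push_cast; ring
  have f3R : (a.q : ℝ) = q' + bq := by rw [← f3]; push_cast; ring
  have f4R : (a.d : ℝ) = d' + bd := by rw [← f4]; push_cast; ring
  have hU : ((a.u : ℝ) - u) * (c * n - c * (c - 1) / 2 - a.T) =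
      (P4 n - 2 * P4 (n - c) + P4 (n - 2 * c)) -
      a.T * (2 * n * c - c ^ 2 + c) / 2 - M * ((n - c) * (n - c + 1)) / 2 - u * (c ^ 2 - M) +
      (2 * a.T * M - M ^ 2 - M) / 2 + bp * (n - 2 * c) + a.p * c + bq - bd * n - d' * c -
      (a.w - w) * c - δ + r := by
    have t1 := v1_cast c n (by omega) a
    have t2 := v1_cast c (n - c) (by omega) ⟨t', p', q', u, d', w, 0⟩
    have t3 : ((n : ℝ) - c - c) = n - 2 * c := by ring
    have t4 : (((⟨t', p', q', u, d', w, 0⟩ : L1).T : ℕ) : ℝ) = N' := by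
      rw [hN', ← fN]
      rfl
    rw [hv', hncR, t3, t4, hN'] at t2
    rw [hs] at t1
    push_cast at t1 t2
    have t5 : (v1 c n a : ℝ) = δ + g := by rw [hδ]; push_cast; ring
    rw [t5, f2R, f3R, f4R] at t1
    rw [f2R]
    linear_combination t1 - t2
  have E3 := est3 (U := (a.u : ℝ) - u) (N := a.T) (e := e) (η := η) cR hcn2 he.le he' hη0.le hx
    hx0 hx1 hMκ hκ0 hκ1 sT (Nat.cast_nonneg _) hTn E2 (Nat.cast_nonneg bp) hbp1
    (Nat.cast_nonneg a.p) hap1 (Nat.cast_nonneg bq) hbq1 (Nat.cast_nonneg bd) hbd1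
    (Nat.cast_nonneg d') hd1 (Nat.cast_nonneg a.w) haw1 hw0R hw1R hδ0 h2 hr0R hr2R hU
  -- the final estimates
  have g1 : 3 * (c : ℝ) ^ 2 * (e + η) * n + 21 * (c : ℝ) ^ 4 ≤ e₃ * n := by
    have t1 : 3 * (c : ℝ) ^ 2 * (e + η) ≤ e₃ / 2 := by linarith only [he1, hη]
    have t2 := mul_le_mul_of_nonneg_right t1 hn0
    linarith only [t2, hn, pow_nonneg (le_trans (by norm_num) cR : (0 : ℝ) ≤ c) 4]
  have g2 : (e + η) * (n : ℝ) ^ 2 + 17 * (c : ℝ) ^ 2 * n ≤ e₃ * (n : ℝ) ^ 2 := by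
    have t1 : e + η ≤ e₃ / 2 := by nlinarith only [he1, hη, hc2, he, hη0]
    have t2 := mul_le_mul_of_nonneg_right t1 (sq_nonneg (n : ℝ))
    have t3 : 34 * (c : ℝ) ^ 2 ≤ e₃ * n := by linarith only [hn, hc4, sq_nonneg (c : ℝ)]
    have t4 := mul_le_mul_of_nonneg_right t3 hn0
    have t5 : e₃ * n * n = e₃ * (n : ℝ) ^ 2 := by ring
    linarith only [t2, t4, t5]
  have GU := le_trans E3 g1
  have GX := le_trans E2 g2
  have hUl : 40 * (n : ℝ) ≤ (a.u : ℝ) - u := by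
    have t1 := (abs_le.1 GU).1
    have t2 : (41 : ℝ) ≤ (3 * xx - κ) / 2 * c := by nlinarith only [cR, hx0, hκ1]
    have t3 := mul_le_mul_of_nonneg_right t2 hn0
    have t4 : e₃ * n ≤ n := mul_le_of_le_one_left hn0 he₃1
    linarith only [t1, t3, t4]
  have hUN : u + 2 * w ≤ a.u := by
    have t : (u : ℝ) + 2 * w ≤ a.u := by linarith only [hUl, hw82, hn0]
    exact_mod_cast t
  -- the configurations
  refine ⟨⟨t', p', q', u, d', w, 0⟩, ⟨M - 2 * bp - 3 * bq - 3 * r, bp, bq, r, a.u - u - 2 * w, w, t',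
    p', q', u, bd, a.w, d'⟩, ?_, rfl, ?_, hv', hr1, ?_⟩
  · refine ⟨?_, f2.symm, f3.symm, ?_, f4.symm, rfl, rfl, rfl, rfl, rfl, rfl, rfl⟩
    · show a.t = t' + (M - 2 * bp - 3 * bq - 3 * r) + 3 * r
      omega
    · show a.u = u + (a.u - u - 2 * w) + 2 * w
      omega
  · refine ⟨⟨f5, f6, f7, ?_⟩, ?_⟩
    · show 10 * w ≤ 9 * (n - c)
      omega
    · show |((t' + 2 * p' + 3 * q' : ℕ) : ℝ) - xx * c * ((n - c : ℕ) : ℝ)| ≤
        e * ((n - c : ℕ) : ℝ)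
      rw [fN, hncR]
      exact hT
  · refine ⟨⟨⟨f9, f10, hr2, f11, ?_, ?_, ?_, ?_, sw⟩, ?_, ?_, ?_⟩, GX⟩
    · show 50 * p' ≤ 21 * n
      omega
    · show 10 * q' ≤ 11 * n
      omega
    · show 100 * d' ≤ 43 * n
      omega
    · show 100 * w ≤ 83 * n
      omega
    · show k * ((M - 2 * bp - 3 * bq - 3 * r) + 2 * bp + 3 * bq + 3 * r) = c ^ 2
      have t : (M - 2 * bp - 3 * bq - 3 * r) + 2 * bp + 3 * bq + 3 * r = M := by omega
      rw [t, hM]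
    · show |(((a.u - u - 2 * w) + 2 * w : ℕ) : ℝ) - (3 * xx - 1 / k) / 2 * c * n| ≤ e₃ * n
      have t : ((a.u - u - 2 * w) + 2 * w : ℕ) = a.u - u := by omega
      rw [t, Nat.cast_sub (by omega), ← hκ]
      exact GU
    · show |((t' + 2 * p' + 3 * q' : ℕ) : ℝ) - xx * c * n| ≤ e₃ * n
      rw [fN, ← hN']
      refine le_trans hN1 ?_
      have t1 : e ≤ e₃ / 12 := by nlinarith only [he1, hc2, he]
      have t2 := mul_le_mul_of_nonneg_right t1 hn0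
      linarith only [t2, hn, hc4, hc2]

private theorem Cls2.mono {c n k : ℕ} {e e' : ℝ} {b : L2} (h : Cls2 c n e k b) (he : e ≤ e') :
    Cls2 c n e' k b := by
  have hn : (0 : ℝ) ≤ n := Nat.cast_nonneg n
  have h1 := mul_le_mul_of_nonneg_right he hn
  have h2 := mul_le_mul_of_nonneg_right he (sq_nonneg (n : ℝ))
  exact ⟨⟨h.toSm2, h.T, h.U.trans h1, h.Y.trans h1⟩, h.x.trans h2⟩

theorem num1 (c : ℕ) (hc : 240 ≤ c) (h60 : 60 ∣ c) (e₂ : ℝ) (he₂ : 0 < e₂) :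
    ∃ e₀ : ℝ, 0 < e₀ ∧ ∀ e : ℝ, 0 < e → e ≤ e₀ → ∃ η : ℝ, 0 < η ∧ ∃ n₀ : ℕ, ∀ n, n₀ ≤ n →
      ∀ a : L1, Cls1 c n e a → a.s = 0 → ∀ g : ℤ, 0 ≤ g → (g : ℝ) ≤ η * (n : ℝ) ^ 3 →
        -((c : ℤ) * n) ≤ v1 c n a - g → ((v1 c n a - g : ℤ) : ℝ) ≤ η * (n : ℝ) ^ 2 →
        ∃ k, (k = 5 ∨ k = 6) ∧ ∃ (a' : L1) (b : L2), Split a a' b ∧ a'.s = 0 ∧
          Cls1 c (n - c) e a' ∧ v1 c (n - c) a' = g + b.r ∧ 1 ≤ b.r ∧ Cls2 c n e₂ k b := by
  obtain ⟨e₃, h3⟩ : ∃ x : ℝ, x = min e₂ 1 := ⟨_, rfl⟩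
  have h30 : 0 < e₃ := by rw [h3]; exact lt_min he₂ one_pos
  have h31 : e₃ ≤ 1 := by rw [h3]; exact min_le_right _ _
  have h32 : e₃ ≤ e₂ := by rw [h3]; exact min_le_left _ _
  have cR : (240 : ℝ) ≤ c := by exact_mod_cast hc
  have c0 : (0 : ℝ) < c := by linarith only [cR]
  have c12 : (0 : ℝ) < 12 * (c : ℝ) ^ 2 := by positivity
  refine ⟨e₃ / (12 * (c : ℝ) ^ 2), by positivity, fun e he he1 => ?_⟩
  rw [le_div_iff₀ c12] at he1
  refine ⟨e₃ / (12 * (c : ℝ) ^ 2), by positivity,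
    ⌈100 * (c : ℝ) ^ 4 / e₃⌉₊ + ⌈(c : ℝ) ^ 2 / e⌉₊ + c, fun n hn a hC hs g hg0 hg1 h1 h2 => ?_⟩
  have n1 : 100 * (c : ℝ) ^ 4 ≤ e₃ * n := by
    have t : (⌈100 * (c : ℝ) ^ 4 / e₃⌉₊ : ℝ) ≤ n := by
      have t : ⌈100 * (c : ℝ) ^ 4 / e₃⌉₊ ≤ n := by omega
      exact_mod_cast t
    have t2 := le_trans (Nat.le_ceil _) t
    rw [div_le_iff₀ h30] at t2
    linarith only [t2]
  have n2 : (c : ℝ) ^ 2 ≤ e * (n - c) := by
    have t : (⌈(c : ℝ) ^ 2 / e⌉₊ : ℝ) ≤ n - c := by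
      have t : ⌈(c : ℝ) ^ 2 / e⌉₊ + c ≤ n := by omega
      have t' : (⌈(c : ℝ) ^ 2 / e⌉₊ : ℝ) + c ≤ n := by exact_mod_cast t
      linarith only [t']
    have t2 := le_trans (Nat.le_ceil _) t
    rw [div_le_iff₀ he] at t2
    linarith only [t2]
  obtain ⟨hx0, hx1⟩ := xx_bd
  have hη : 12 * (c : ℝ) ^ 2 * (e₃ / (12 * (c : ℝ) ^ 2)) = e₃ := by
    field_simp
  obtain ⟨sT1, sT2⟩ := abs_le.1 hC.T
  have hc2 : 240 * (c : ℝ) ≤ (c : ℝ) ^ 2 := by
    rw [sq]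
    exact mul_le_mul_of_nonneg_right cR c0.le
  have hc0 : (0 : ℝ) ≤ (c : ℝ) ^ 2 := sq_nonneg _
  have hec : e * c ≤ c / 2 := by
    have t : e ≤ 1 / 2 := by nlinarith only [he1, h31, cR, he]
    nlinarith only [t, c0]
  obtain ⟨m, hm⟩ := h60
  by_cases hd : xx * c * n < a.T
  · obtain ⟨a', b, r1, r2, r3, r4, r5, r6⟩ := core c n 5 (720 * m ^ 2) hc e e₃ _ he h30 h31
      (by linarith only [he1]) hη n1 (Or.inl rfl) (by rw [hm]; ring) a hC hs g hg0 hg1 h1 h2 (by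
        have t : ((720 * m ^ 2 : ℕ) : ℝ) = (c : ℝ) ^ 2 / 5 := by
          rw [hm]
          push_cast
          ring
        have t2 : xx * c * (n - c) = xx * c * n - xx * (c : ℝ) ^ 2 := by ring
        have t3 : xx * (c : ℝ) ^ 2 ≤ 0.184 * (c : ℝ) ^ 2 :=
          mul_le_mul_of_nonneg_right (by linarith only [hx1]) hc0
        have t4 : 0 ≤ xx * (c : ℝ) ^ 2 := mul_nonneg (by linarith only [hx0]) hc0
        have t5 : e * (n - c) = e * n - e * c := by ring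
        rw [t, t2, abs_le]
        constructor
        · linarith only [hd, n2, t4, hc0]
        · rw [t5]
          linarith only [sT2, t3, hec, hc2, hc0, c0])
    exact ⟨5, Or.inl rfl, a', b, r1, r2, r3, r4, r5, r6.mono h32⟩
  · obtain ⟨a', b, r1, r2, r3, r4, r5, r6⟩ := core c n 6 (600 * m ^ 2) hc e e₃ _ he h30 h31
      (by linarith only [he1]) hη n1 (Or.inr rfl) (by rw [hm]; ring) a hC hs g hg0 hg1 h1 h2 (by
        have t : ((600 * m ^ 2 : ℕ) : ℝ) = (c : ℝ) ^ 2 / 6 := by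
          rw [hm]
          push_cast
          ring
        have t2 : xx * c * (n - c) = xx * c * n - xx * (c : ℝ) ^ 2 := by ring
        have t3 : 0.183 * (c : ℝ) ^ 2 ≤ xx * (c : ℝ) ^ 2 :=
          mul_le_mul_of_nonneg_right (by linarith only [hx0]) hc0
        have t4 : xx * (c : ℝ) ^ 2 ≤ 1 * (c : ℝ) ^ 2 :=
          mul_le_mul_of_nonneg_right (by linarith only [hx1]) hc0
        have t5 : e * (n - c) = e * n - e * c := by ring
        rw [not_lt] at hd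
        rw [t, t2, abs_le]
        constructor
        · rw [t5]
          linarith only [sT1, t3, hec, hc2, hc0, c0]
        · linarith only [hd, n2, t4, hc0])
    exact ⟨6, Or.inr rfl, a', b, r1, r2, r3, r4, r5, r6.mono h32⟩

end Pool.Agent.KZ
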